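import Pool.Agent.Q246.NC.Hor

set_option autoImplicit false

/-!
# Comparison of the modulus at two points of a horizontal line
-/

namespace Pool.Agent.Q246.SA

open Complex Filter Topology Polynomial Set
open Pool.Agent.Y22.LM (q q_eq q_nonneg norm_eval_pow4)
open scoped ComplexConjugate

lemma q_cmp {β x v u : ℝ} (hvu : v ^ 2 ≤ u ^ 2) (hc : 2 * β ^ 2 ≤ u ^ 2 + v ^ 2 + 2 * x ^ 2) :
    q β x v ≤ q β x u := by
  rw [q_eq, q_eq]
  nlinarith [mul_nonneg (sub_nonneg.2 hvu) (sub_nonneg.2 hc)]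

/-- comparison of the values at `v + i t` and `u + i t` -/
theorem cmp_of {f : ℂ → ℂ} {p : ℕ → ℂ[X]}
    (hroots : ∀ (N : ℕ) (z : ℂ), (p N).IsRoot z → f z = 0 ∨ z.re = 0)
    (hlim : TendstoLocallyUniformly (fun (N : ℕ) (z : ℂ) => (p N).eval z) f atTop)
    (hsym : ∀ (N : ℕ) (h t : ℝ), ‖(p N).eval (-h + t * I : ℂ)‖ = ‖(p N).eval (h + t * I : ℂ)‖)
    {t v u : ℝ} (hvu : v ^ 2 ≤ u ^ 2)
    (hZ : ∀ b : ℂ, f b = 0 → 2 * b.re ^ 2 ≤ u ^ 2 + v ^ 2 + 2 * (t - b.im) ^ 2) :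
    ‖f (v + t * I : ℂ)‖ ≤ ‖f (u + t * I : ℂ)‖ := by
  have hpt : ∀ z : ℂ, Tendsto (fun N => ‖(p N).eval z‖) atTop (𝓝 ‖f z‖) := fun z =>
    ((tendstoLocallyUniformlyOn_univ.mpr hlim).tendsto_at (Set.mem_univ z)).norm
  refine le_of_tendsto_of_tendsto' (hpt _) (hpt _) fun N => ?_
  refine le_of_pow_le_pow_left₀ (n := 4) (by norm_num) (norm_nonneg _) ?_
  rw [norm_eval_pow4 (fun h => hsym N h t), norm_eval_pow4 (fun h => hsym N h t)]
  refine mul_le_mul_of_nonneg_left ?_ (by positivity)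
  refine Multiset.prod_map_le_prod_map₀ _ _ (fun b _ => q_nonneg _ _ _) fun b hb => ?_
  refine q_cmp hvu ?_
  rcases hroots N b (Polynomial.isRoot_of_mem_roots hb) with h3 | h3
  · exact hZ b h3
  · rw [h3]
    nlinarith [sq_nonneg u, sq_nonneg v, sq_nonneg (t - b.im)]

/-- the margin -/
theorem margin {f : ℂ → ℂ} (hfd : Differentiable ℂ f) (hst : ∀ b, f b = 0 → |b.re| ≤ 1 / 2) {t A : ℝ} (hA : 0 ≤ A)
    (hZ : ∀ b : ℂ, f b = 0 → 2 * b.re ^ 2 < A + 2 * (t - b.im) ^ 2) :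
    ∃ ε : ℝ, 0 < ε ∧ ∀ b : ℂ, f b = 0 → 2 * b.re ^ 2 + ε ≤ A + 2 * (t - b.im) ^ 2 := by
  have h1 : f 1 ≠ 0 := by
    intro h0
    have := hst 1 h0
    norm_num at this
  have hK : IsCompact (Icc (-(1 / 2 : ℝ)) (1 / 2) ×ℂ Icc (t - 1) (t + 1)) := isCompact_Icc.reProdIm isCompact_Icc
  have hfin := Pool.Agent.W186.LH.zfin hfd ⟨1, h1⟩ hK
  obtain ⟨Z, hZd⟩ : ∃ Z : Finset ℂ, Z = hfin.toFinset := ⟨_, rfl⟩
  have hmem : ∀ b, f b = 0 → |t - b.im| ≤ 1 → b ∈ Z := by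
    intro b hb h2
    rw [hZd, Set.Finite.mem_toFinset]
    have h3 := abs_le.1 (hst b hb)
    have h4 := abs_le.1 h2
    exact ⟨⟨⟨h3.1, h3.2⟩, by constructor <;> linarith [h4.1, h4.2]⟩, hb⟩
  have hpos : ∀ b ∈ Z, 0 < A + 2 * (t - b.im) ^ 2 - 2 * b.re ^ 2 := by
    intro b hb
    rw [hZd, Set.Finite.mem_toFinset] at hb
    have := hZ b hb.2
    linarith
  obtain ⟨ε, hε, hεZ⟩ : ∃ ε : ℝ, 0 < ε ∧ ∀ b ∈ Z, ε ≤ A + 2 * (t - b.im) ^ 2 - 2 * b.re ^ 2 := by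
    rcases Z.eq_empty_or_nonempty with h | h
    · exact ⟨1, one_pos, by simp [h]⟩
    · obtain ⟨b0, hb0, hmin⟩ := Z.exists_min_image (fun b => A + 2 * (t - b.im) ^ 2 - 2 * b.re ^ 2) h
      exact ⟨_, hpos b0 hb0, hmin⟩
  refine ⟨min ε 1, by positivity, fun b hb => ?_⟩
  rcases le_or_gt |t - b.im| 1 with h2 | h2
  · have h3 := hεZ b (hmem b hb h2)
    have h4 := min_le_left ε 1
    linarith
  · have h3 : b.re ^ 2 ≤ 1 / 4 := by
      have := hst b hb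
      rw [← sq_abs]
      nlinarith [abs_nonneg b.re]
    have h4 : 1 ≤ (t - b.im) ^ 2 := by
      rw [← sq_abs]
      nlinarith
    have h5 := min_le_right ε 1
    linarith

/-- strict comparison -/
theorem cmp_lt {f : ℂ → ℂ} (hfd : Differentiable ℂ f) (hfs : ∀ z : ℂ, f (-(conj z)) = conj (f z))
    (hz0 : ∃ z, f z = 0) {p : ℕ → ℂ[X]}
    (hroots : ∀ (N : ℕ) (z : ℂ), (p N).IsRoot z → f z = 0 ∨ z.re = 0)
    (hlim : TendstoLocallyUniformly (fun (N : ℕ) (z : ℂ) => (p N).eval z) f atTop)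
    (hsym : ∀ (N : ℕ) (h t : ℝ), ‖(p N).eval (-h + t * I : ℂ)‖ = ‖(p N).eval (h + t * I : ℂ)‖)
    (hst : ∀ b, f b = 0 → |b.re| ≤ 1 / 2) {t v u : ℝ} (hu : 0 < u) (hvu : v ^ 2 < u ^ 2)
    (hZ : ∀ b : ℂ, f b = 0 → 2 * b.re ^ 2 < u ^ 2 + v ^ 2 + 2 * (t - b.im) ^ 2) :
    ‖f (v + t * I : ℂ)‖ < ‖f (u + t * I : ℂ)‖ := by
  obtain ⟨ε, hε, hm⟩ := margin hfd hst (by positivity) hZ
  -- a smaller point
  obtain ⟨w, hw0, hwu, hwv, hwε⟩ : ∃ w : ℝ, 0 < w ∧ w < u ∧ (u ^ 2 + v ^ 2) / 2 < w ^ 2 ∧ u ^ 2 - ε ≤ w ^ 2 := by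
    have hmax : max ((u ^ 2 + v ^ 2) / 2) (u ^ 2 - ε) < u ^ 2 := max_lt (by linarith) (by linarith)
    obtain ⟨s, hs1, hs2⟩ := exists_between hmax
    have hs0 : 0 < s := by
      have h1 := (le_max_left ((u ^ 2 + v ^ 2) / 2) (u ^ 2 - ε)).trans_lt hs1
      nlinarith [sq_nonneg v, sq_pos_of_pos hu]
    refine ⟨Real.sqrt s, Real.sqrt_pos.2 hs0, ?_, ?_, ?_⟩
    · rw [← Real.sqrt_sq hu.le]
      exact Real.sqrt_lt_sqrt hs0.le hs2
    · rw [Real.sq_sqrt hs0.le]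
      exact (le_max_left _ _).trans_lt hs1
    · rw [Real.sq_sqrt hs0.le]
      exact ((le_max_right _ _).trans_lt hs1).le
  have hcmp : ∀ a b : ℝ, a ^ 2 ≤ b ^ 2 → u ^ 2 + v ^ 2 - ε ≤ a ^ 2 + b ^ 2 →
      ‖f (a + t * I : ℂ)‖ ≤ ‖f (b + t * I : ℂ)‖ := by
    intro a b h1 h2
    refine cmp_of hroots hlim hsym h1 fun c hc => ?_
    have := hm c hc
    linarith
  by_contra hcon
  push Not at hcon
  have hg : ∀ x ∈ Set.Ioo w u, ‖f (x + t * I : ℂ)‖ = ‖f (u + t * I : ℂ)‖ := by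
    intro x hx
    have hx0 : 0 < x := hw0.trans hx.1
    have hxw : w ^ 2 ≤ x ^ 2 := pow_le_pow_left₀ hw0.le hx.1.le 2
    have hxu : x ^ 2 ≤ u ^ 2 := pow_le_pow_left₀ hx0.le hx.2.le 2
    refine le_antisymm (hcmp x u hxu ?_) (hcon.trans (hcmp v x ?_ ?_))
    · nlinarith [sq_nonneg v]
    · linarith
    · linarith
  have hne : ∀ x : ℝ, w ≤ x → f (x + t * I : ℂ) ≠ 0 := by
    intro x hx h0
    have h1 := hZ _ h0
    simp only [add_re, ofReal_re, mul_re, I_re, mul_zero, ofReal_im, I_im, mul_one, sub_self, add_zero,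
      add_im, mul_im, zero_add] at h1
    have h2 : w ^ 2 ≤ x ^ 2 := pow_le_pow_left₀ hw0.le hx 2
    nlinarith
  obtain ⟨G, hG⟩ : ∃ G : ℂ → ℂ, G = fun z => f (z + t * I) * f (-z + t * I) - ((‖f (u + t * I : ℂ)‖ : ℂ)) ^ 2 := ⟨_, rfl⟩
  have hGd : Differentiable ℂ G := by
    rw [hG]
    have e1 : Differentiable ℂ (fun z : ℂ => f (z + t * I)) := hfd.comp (by fun_prop)
    have e2 : Differentiable ℂ (fun z : ℂ => f (-z + t * I)) := hfd.comp (by fun_prop)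
    exact (e1.mul e2).sub_const _
  have hG0 : ∀ x ∈ Set.Ioo w u, G x = 0 := by
    intro x hh
    rw [hG]
    simp only
    have e1 : (-x + t * I : ℂ) = -((starRingEnd ℂ) (x + t * I : ℂ)) := by
      rw [map_add, map_mul, Complex.conj_ofReal, Complex.conj_ofReal, Complex.conj_I]; ring
    rw [e1, hfs, Complex.mul_conj, Complex.normSq_eq_norm_sq, hg x hh]
    push_cast
    ring
  have hGz : G = 0 := by
    have hmm : (((w + u) / 2 : ℝ) : ℂ) ∈ (Set.univ : Set ℂ) := Set.mem_univ _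
    have hfreq : ∃ᶠ z in 𝓝[≠] (((w + u) / 2 : ℝ) : ℂ), G z = 0 := by
      have hmap : Tendsto (fun x : ℝ => (x : ℂ)) (𝓝[≠] ((w + u) / 2)) (𝓝[≠] (((w + u) / 2 : ℝ) : ℂ)) := by
        refine tendsto_nhdsWithin_iff.mpr ⟨(Complex.continuous_ofReal.tendsto _).mono_left nhdsWithin_le_nhds, ?_⟩
        filter_upwards [self_mem_nhdsWithin] with x hx
        rw [Set.mem_compl_singleton_iff] at hx ⊢
        exact fun h0 => hx (by exact_mod_cast h0)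
      refine hmap.frequently (Eventually.frequently ?_)
      have : ∀ᶠ x : ℝ in 𝓝 ((w + u) / 2), x ∈ Set.Ioo w u := isOpen_Ioo.mem_nhds ⟨by linarith, by linarith⟩
      filter_upwards [this.filter_mono nhdsWithin_le_nhds] with x hx
      exact hG0 x hx
    have h3 := AnalyticOnNhd.eqOn_zero_of_preconnected_of_frequently_eq_zero (f := G) (U := Set.univ)
      (fun z _ => hGd.analyticAt z) isPreconnected_univ hmm hfreq
    funext z
    exact h3 (Set.mem_univ z)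
  obtain ⟨z0, hz0⟩ := hz0
  have h4 := congrFun hGz (z0 - t * I)
  rw [hG] at h4
  simp only [Pi.zero_apply, sub_add_cancel, hz0, zero_mul, zero_sub, neg_eq_zero] at h4
  have h5 : ‖f (u + t * I : ℂ)‖ = 0 := by
    have := pow_eq_zero_iff (two_ne_zero) |>.mp h4
    exact_mod_cast this
  exact hne u hwu.le (norm_eq_zero.mp h5)

/-- growth to the right gives a logarithmic derivative with nonnegative real part -/
theorem re_nonneg_of_mono {f : ℂ → ℂ} {z : ℂ} (hf : DifferentiableAt ℂ f z) (hne : f z ≠ 0) {δ : ℝ} (hδ : 0 < δ)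
    (hm : ∀ h : ℝ, 0 < h → h < δ → ‖f z‖ ≤ ‖f (z + h)‖) : 0 ≤ (logDeriv f z).re := by
  have h1 : HasDerivAt (fun x : ℝ => f (z + x)) (deriv f z) 0 := by
    have h2 : HasDerivAt f (deriv f z) (z + ((0 : ℝ) : ℂ)) := by simpa using hf.hasDerivAt
    have h3 : HasDerivAt (fun x : ℝ => z + (x : ℂ)) 1 0 := by
      simpa using (Complex.ofRealCLM.hasDerivAt (x := (0 : ℝ))).const_add z
    have h4 := h2.comp (0 : ℝ) h3
    rw [mul_one] at h4
    exact h4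
  have h4 : HasDerivAt (fun x : ℝ => ‖f (z + x)‖ ^ 2) (2 * (inner ℝ (f (z + (0 : ℝ))) (deriv f z))) 0 := h1.norm_sq
  have h5 : 0 ≤ 2 * (inner ℝ (f (z + (0 : ℝ))) (deriv f z)) := by
    have h6 := h4.hasDerivWithinAt (s := Set.Ioi 0)
    rw [hasDerivWithinAt_iff_tendsto_slope' (by simp)] at h6
    refine ge_of_tendsto h6 ?_
    have h7 : ∀ᶠ x : ℝ in 𝓝[>] 0, x ∈ Set.Ioo 0 δ := Ioo_mem_nhdsGT hδ
    filter_upwards [h7] with x hx
    rw [slope_def_field, sub_zero]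
    apply div_nonneg _ hx.1.le
    have h8 := hm x hx.1 hx.2
    have h9 : ‖f z‖ ^ 2 ≤ ‖f (z + x)‖ ^ 2 := pow_le_pow_left₀ (norm_nonneg _) h8 2
    simpa using h9
  rw [Complex.ofReal_zero, add_zero, Complex.inner] at h5
  rw [logDeriv_apply, Complex.div_re]
  have h6 : 0 < Complex.normSq (f z) := Complex.normSq_pos.2 hne
  rw [Complex.mul_re, Complex.conj_re, Complex.conj_im] at h5
  rw [← add_div]
  apply div_nonneg _ h6.le
  nlinarith

end Pool.Agent.Q246.SA
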