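import Pool.Agent.Q246.SA.Two
import Pool.Agent.Y423.GL.TotD

set_option autoImplicit false

/-!
# Local counts for `X(z + h) - ω X(z - h)`
-/

namespace Pool.Agent.Q246.SA

open Complex Filter Topology Polynomial Set Metric
open Pool.Agent.Y671.GL
open scoped ComplexConjugate

variable {X : ℂ → ℂ}

theorem Sy.pos_right (h : Sy X) {t u : ℝ} (hu : 1 / 2 < u) :
    X (u + t * I : ℂ) ≠ 0 ∧ 0 < (logDeriv X (u + t * I : ℂ)).re := by
  refine h.re_pos (by linarith) fun b hb => ?_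
  have h1 := h.strip b hb
  have h2 : b.re ^ 2 ≤ (1 / 2) ^ 2 := by
    rw [← sq_abs]
    exact pow_le_pow_left₀ (abs_nonneg _) h1 2
  nlinarith [sq_nonneg (t - b.im)]

/-- growth from a lower bound for the logarithmic derivative -/
theorem grow_of {f : ℂ → ℂ} (hf : Differentiable ℂ f) {t a b m : ℝ} (hab : a ≤ b)
    (hne : ∀ u : ℝ, a ≤ u → u ≤ b → f (u + t * I) ≠ 0)
    (hm : ∀ u : ℝ, a ≤ u → u ≤ b → m ≤ (logDeriv f (u + t * I)).re) :
    ‖f (a + t * I)‖ * Real.exp (m * (b - a)) ≤ ‖f (b + t * I)‖ := by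
  obtain ⟨φ, hφ⟩ : ∃ φ : ℝ → ℝ, φ = fun u : ℝ => ‖f (u + t * I)‖ ^ 2 * Real.exp (-(2 * m * u)) := ⟨_, rfl⟩
  have hd : ∀ u : ℝ, HasDerivAt φ (2 * (inner ℝ (f (u + t * I)) (deriv f (u + t * I))) * Real.exp (-(2 * m * u)) +
      ‖f (u + t * I)‖ ^ 2 * (Real.exp (-(2 * m * u)) * (-(2 * m * 1)))) u := by
    intro u
    have h1 : HasDerivAt (fun x : ℝ => f (x + t * I)) (deriv f (u + t * I)) u := by
      have h2 : HasDerivAt f (deriv f (u + t * I)) (u + t * I : ℂ) := (hf _).hasDerivAt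
      have h3 : HasDerivAt (fun x : ℝ => (x : ℂ) + t * I) 1 u := by
        simpa using (Complex.ofRealCLM.hasDerivAt (x := u)).add_const ((t : ℂ) * I)
      have h4 := h2.comp u h3
      rw [mul_one] at h4
      exact h4
    have h5 : HasDerivAt (fun x : ℝ => ‖f (x + t * I)‖ ^ 2)
      (2 * (inner ℝ (f (u + t * I)) (deriv f (u + t * I)))) u := h1.norm_sq
    have h6 : HasDerivAt (fun x : ℝ => Real.exp (-(2 * m * x))) (Real.exp (-(2 * m * u)) * (-(2 * m * 1))) u :=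
      (((hasDerivAt_id u).const_mul (2 * m)).neg).exp
    rw [hφ]
    exact h5.mul h6
  have hmono : MonotoneOn φ (Set.Icc a b) := by
    refine monotoneOn_of_deriv_nonneg (convex_Icc a b) (fun u _ => (hd u).continuousAt.continuousWithinAt)
      (fun u _ => (hd u).differentiableAt.differentiableWithinAt) fun u hu => ?_
    rw [interior_Icc] at hu
    rw [(hd u).deriv]
    have h1 := hm u hu.1.le hu.2.le
    have h2 := hne u hu.1.le hu.2.le
    obtain ⟨A, hA⟩ : ∃ A, A = f (u + t * I) := ⟨_, rfl⟩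
    obtain ⟨B, hB⟩ : ∃ B, B = deriv f (u + t * I) := ⟨_, rfl⟩
    rw [logDeriv_apply, ← hA, ← hB] at h1
    rw [← hA] at h2
    rw [← hA, ← hB]
    have h3 : 0 < Complex.normSq A := Complex.normSq_pos.2 h2
    have h4 : inner ℝ A B = (B / A).re * Complex.normSq A := by
      rw [Complex.inner, Complex.div_re, Complex.mul_re, Complex.conj_re, Complex.conj_im]
      field_simp
      ring
    have h5 : ‖A‖ ^ 2 = Complex.normSq A := (Complex.normSq_eq_norm_sq A).symm
    rw [h4, h5]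
    have h6 := Real.exp_pos (-(2 * m * u))
    have h7 : 0 ≤ 2 * ((B / A).re - m) * Complex.normSq A * Real.exp (-(2 * m * u)) := by
      have : 0 ≤ (B / A).re - m := by linarith
      positivity
    linarith
  have h1 := hmono ⟨le_rfl, hab⟩ ⟨hab, le_rfl⟩ hab
  rw [hφ] at h1
  simp only at h1
  have h2 : (‖f (a + t * I)‖ * Real.exp (m * (b - a))) ^ 2 ≤ ‖f (b + t * I)‖ ^ 2 := by
    have h3 : (‖f (a + t * I)‖ * Real.exp (m * (b - a))) ^ 2 =
        (‖f (a + t * I)‖ ^ 2 * Real.exp (-(2 * m * a))) * Real.exp (2 * m * b) := by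
      rw [mul_pow, ← Real.exp_nat_mul, mul_assoc, ← Real.exp_add]
      congr 2
      push_cast
      ring
    rw [h3]
    calc _ ≤ (‖f (b + t * I)‖ ^ 2 * Real.exp (-(2 * m * b))) * Real.exp (2 * m * b) :=
          mul_le_mul_of_nonneg_right h1 (Real.exp_pos _).le
      _ = ‖f (b + t * I)‖ ^ 2 := by rw [mul_assoc, ← Real.exp_add]; simp
  exact le_of_pow_le_pow_left₀ (two_ne_zero) (norm_nonneg _) h2

variable {κ : ℝ} {H Z : ℂ → ℂ}

/-- the logarithmic derivative on `[2, 4] × [-1, ∞)` -/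
theorem ld_low (h : Sy X) (hcf : CF κ H X Z) : ∃ m : ℝ, 0 < m ∧ ∀ u t : ℝ, 2 ≤ u → u ≤ 4 → -1 ≤ t →
    m ≤ (logDeriv X (u + t * I)).re := by
  obtain ⟨T0, hT0, hlo⟩ := Pool.Agent.Y423.GL.loX hcf 4 (by norm_num) (1 / 2) (by norm_num)
  have hκ := hcf.κ_pos
  have hK : IsCompact (Icc (2 : ℝ) 4 ×ˢ Icc (-1 : ℝ) T0) := isCompact_Icc.prod isCompact_Icc
  have hne : (Icc (2 : ℝ) 4 ×ˢ Icc (-1 : ℝ) T0).Nonempty := ⟨(2, 0), ⟨by norm_num, by norm_num⟩, by norm_num, by linarith⟩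
  have hc : ContinuousOn (fun p : ℝ × ℝ => (logDeriv X ((p.1 : ℂ) + p.2 * I)).re) (Icc (2 : ℝ) 4 ×ˢ Icc (-1 : ℝ) T0) := by
    intro p hp
    have h1 := (h.pos_right (t := p.2) (u := p.1) (by linarith [hp.1.1])).1
    have h2 : ContinuousAt (logDeriv X) ((p.1 : ℂ) + p.2 * I) :=
      ((h.diff.analyticAt _).deriv.div (h.diff.analyticAt _) h1).continuousAt
    have h3 : ContinuousAt (fun p : ℝ × ℝ => ((p.1 : ℂ) + p.2 * I)) p := by fun_prop
    exact (Complex.continuous_re.continuousAt.comp (ContinuousAt.comp (f := fun p : ℝ × ℝ => ((p.1 : ℂ) + p.2 * I)) h2 h3)).continuousWithinAt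
  obtain ⟨p0, hp0, hmin⟩ := hK.exists_isMinOn hne hc
  have h0 := (h.pos_right (t := p0.2) (u := p0.1) (by linarith [hp0.1.1])).2
  have hl2 : 0 < Real.log 2 := Real.log_pos (by norm_num)
  refine ⟨min (logDeriv X ((p0.1 : ℂ) + p0.2 * I)).re (κ * Real.log 2 / 2), lt_min h0 (by positivity), ?_⟩
  intro u t h2 h4 ht
  rcases le_or_gt t T0 with h5 | h5
  · exact (min_le_left _ _).trans (hmin (show ((u, t) : ℝ × ℝ) ∈ _ from ⟨⟨h2, h4⟩, ht, h5⟩))
  · refine (min_le_right _ _).trans ?_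
    obtain ⟨-, -, h6, -⟩ := hlo t (u : ℂ) h5.le (by rw [Complex.norm_real, Real.norm_of_nonneg (by linarith)]; exact h4)
      (by rw [Complex.ofReal_re]; linarith)
    have e : (I * t + u : ℂ) = u + t * I := by ring
    rw [e] at h6
    have h7 := (abs_le.1 ((Complex.abs_re_le_norm _).trans h6)).1
    rw [Complex.sub_re, Complex.ofReal_re] at h7
    have h8 : Real.log 2 ≤ Real.log t := Real.log_le_log (by norm_num) (by linarith)
    have h9 : κ * Real.log 2 ≤ κ * Real.log t := mul_le_mul_of_nonneg_left h8 hκ.le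
    linarith

/-- comparison of values in boxes -/
theorem box (h : Sy X) (hcf : CF κ H X Z) (R : ℝ) (hR : 4 ≤ R) : ∃ K : ℝ, 0 < K ∧ ∀ (t : ℝ) (w : ℂ) (u : ℝ), -1 ≤ t →
    |w.re| ≤ R → |w.im - t| ≤ R → 2 ≤ u → u ≤ 4 →
    ‖X w‖ ≤ Real.exp (K * Real.log (3 + t)) * ‖X (u + t * I)‖ := by
  obtain ⟨T0, hT0, hlo⟩ := Pool.Agent.Y423.GL.loX hcf 4 (by norm_num) (1 / 2) (by norm_num)
  obtain ⟨C1, hC1, hU⟩ := Pool.Agent.Y423.GL.upX hcf
  obtain ⟨T1, hT1, hup⟩ := hU R (by linarith)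
  have hκ := hcf.κ_pos
  obtain ⟨T2, hT2⟩ : ∃ T2 : ℝ, T2 = max T0 T1 := ⟨_, rfl⟩
  have hT20 : T0 ≤ T2 := by rw [hT2]; exact le_max_left _ _
  have hT21 : T1 ≤ T2 := by rw [hT2]; exact le_max_right _ _
  have hl2 : 0 < Real.log 2 := Real.log_pos (by norm_num)
  -- compact part
  have hK1 : IsCompact (Icc (-R) R ×ℂ Icc (-1 - R) (T2 + R)) := isCompact_Icc.reProdIm isCompact_Icc
  obtain ⟨M, hM⟩ := hK1.exists_bound_of_continuousOn h.diff.continuous.continuousOn
  have hK2 : IsCompact (Icc (2 : ℝ) 4 ×ℂ Icc (-1 : ℝ) T2) := isCompact_Icc.reProdIm isCompact_Icc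
  have hne2 : (Icc (2 : ℝ) 4 ×ℂ Icc (-1 : ℝ) T2).Nonempty := ⟨2, ⟨by norm_num, by norm_num⟩, by
    show (-1 : ℝ) ≤ (2 : ℂ).im ∧ (2 : ℂ).im ≤ T2
    have e2 : (2 : ℂ).im = 0 := by norm_num
    rw [e2]
    constructor <;> linarith⟩
  obtain ⟨w0, hw0, hmin⟩ := hK2.exists_isMinOn hne2 (h.diff.continuous.norm.continuousOn)
  have hm0 : 0 < ‖X w0‖ := by
    rw [norm_pos_iff]
    have := (h.pos_right (t := w0.im) (u := w0.re) (by linarith [hw0.1.1])).1
    rwa [Complex.re_add_im] at this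
  have hMM : M ≤ |M| := le_abs_self M
  obtain ⟨E, hE⟩ : ∃ E : ℝ, E = |Real.log ((|M| + 1) / ‖X w0‖)| / Real.log 2 := ⟨_, rfl⟩
  have hE0 : 0 ≤ E := by rw [hE]; positivity
  refine ⟨E + (κ * (R + C1) + 1), by positivity, fun t w u ht h1 h2 h3 h4 => ?_⟩
  have hlog : Real.log 2 ≤ Real.log (3 + t) := Real.log_le_log (by norm_num) (by linarith)
  rcases le_or_gt t T2 with h5 | h5
  · have a1 : ‖X w‖ ≤ M := by
      refine hM w ⟨abs_le.1 h1, ?_⟩
      obtain ⟨b1, b2⟩ := abs_le.1 h2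
      constructor <;> linarith
    have a2 : ‖X w0‖ ≤ ‖X (u + t * I)‖ := by
      refine hmin (show (u + t * I : ℂ) ∈ _ from ⟨?_, ?_⟩)
      · simp
        exact ⟨h3, h4⟩
      · simp
        exact ⟨ht, h5⟩
    have a3 : (|M| + 1) / ‖X w0‖ ≤ Real.exp ((E + (κ * (R + C1) + 1)) * Real.log (3 + t)) := by
      have b0 : 0 < (|M| + 1) / ‖X w0‖ := by positivity
      calc (|M| + 1) / ‖X w0‖ = Real.exp (Real.log ((|M| + 1) / ‖X w0‖)) := (Real.exp_log b0).symm
        _ ≤ _ := by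
          apply Real.exp_le_exp.2
          calc Real.log ((|M| + 1) / ‖X w0‖) ≤ E * Real.log 2 := by
                rw [hE, div_mul_cancel₀ _ hl2.ne']
                exact le_abs_self _
            _ ≤ E * Real.log (3 + t) := mul_le_mul_of_nonneg_left hlog hE0
            _ ≤ _ := by
              have : 0 ≤ (κ * (R + C1) + 1) * Real.log (3 + t) := by
                have : 0 ≤ Real.log (3 + t) := hl2.le.trans hlog
                positivity
              linarith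
    calc ‖X w‖ ≤ (|M| + 1) / ‖X w0‖ * ‖X w0‖ := by
          rw [div_mul_cancel₀ _ hm0.ne']
          linarith
      _ ≤ _ := mul_le_mul a3 a2 hm0.le (Real.exp_pos _).le
  · have ht0 : T0 ≤ t := by linarith
    have ht1 : T1 ≤ t := by linarith
    have htp : 0 < t := by linarith
    have a1 := hup t w ht1 h1 h2
    obtain ⟨b1, -, -, b2⟩ := hlo t (u : ℂ) ht0 (by rw [Complex.norm_real, Real.norm_of_nonneg (by linarith)]; exact h4)
      (by rw [Complex.ofReal_re]; linarith)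
    have e : (I * t + u : ℂ) = u + t * I := by ring
    rw [e, Complex.ofReal_re] at b2
    have hlt : Real.log t ≤ Real.log (3 + t) := Real.log_le_log htp (by linarith)
    have hlt0 : 0 ≤ Real.log t := Real.log_nonneg (by linarith)
    have b3 : ‖H (I * t)‖ ≤ Real.exp (Real.log t) * ‖X (u + t * I)‖ := by
      calc ‖H (I * t)‖ ≤ Real.exp (Real.log t) * (‖H (I * t)‖ * Real.exp (κ * Real.log t * u - Real.log t)) := by
            have c1 : 1 ≤ Real.exp (κ * Real.log t * u) := Real.one_le_exp (by positivity)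
            have c2 : Real.exp (Real.log t) * (‖H (I * t)‖ * Real.exp (κ * Real.log t * u - Real.log t)) =
                ‖H (I * t)‖ * Real.exp (κ * Real.log t * u) := by
              rw [mul_left_comm, ← Real.exp_add]
              congr 2
              ring
            rw [c2]
            nlinarith
        _ ≤ _ := mul_le_mul_of_nonneg_left b2 (Real.exp_pos _).le
    calc ‖X w‖ ≤ ‖H (I * t)‖ * Real.exp (κ * Real.log t * (|w.re| + C1)) := a1
      _ ≤ (Real.exp (Real.log t) * ‖X (u + t * I)‖) * Real.exp (κ * Real.log t * (R + C1)) := by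
          gcongr
      _ = Real.exp ((κ * (R + C1) + 1) * Real.log t) * ‖X (u + t * I)‖ := by
          rw [mul_right_comm, ← Real.exp_add]
          congr 2
          ring
      _ ≤ _ := by
          refine mul_le_mul_of_nonneg_right (Real.exp_le_exp.2 ?_) (norm_nonneg _)
          have c1 : 0 ≤ κ * (R + C1) + 1 := by positivity
          have c2 := mul_le_mul_of_nonneg_left hlt c1
          have c3 : 0 ≤ E * Real.log (3 + t) := mul_nonneg hE0 (hl2.le.trans hlog)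
          linarith

/-- the value at `3 + i t` -/
theorem FF_low (h : Sy X) (hcf : CF κ H X Z) : ∃ c : ℝ, 0 < c ∧ ∀ (s t : ℝ) (ω : ℂ), 0 < s → s ≤ 1 → ‖ω‖ = 1 → -1 ≤ t →
    c * s * ‖X (((3 + s : ℝ) : ℂ) + t * I)‖ ≤ ‖FF X s ω (3 + t * I)‖ := by
  obtain ⟨m, hm, hlow⟩ := ld_low h hcf
  refine ⟨min m (1 / 2), by positivity, fun s t ω hs hs1 hω ht => ?_⟩
  have h1 := grow_of h.diff (t := t) (a := 3 - s) (b := 3 + s) (m := m) (by linarith)
    (fun u h1 h2 => (h.pos_right (by linarith)).1) (fun u h1 h2 => hlow u t (by linarith) (by linarith) ht)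
  unfold FF
  have e1 : (3 + t * I : ℂ) + s = ((3 + s : ℝ) : ℂ) + t * I := by push_cast; ring
  have e2 : (3 + t * I : ℂ) - s = ((3 - s : ℝ) : ℂ) + t * I := by push_cast; ring
  rw [e1, e2]
  have h2 : ‖X (((3 + s : ℝ) : ℂ) + t * I)‖ - ‖X (((3 - s : ℝ) : ℂ) + t * I)‖ ≤
      ‖X (((3 + s : ℝ) : ℂ) + t * I) - ω * X (((3 - s : ℝ) : ℂ) + t * I)‖ := by
    have := norm_sub_norm_le (X (((3 + s : ℝ) : ℂ) + t * I)) (ω * X (((3 - s : ℝ) : ℂ) + t * I))
    rwa [norm_mul, hω, one_mul] at this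
  refine le_trans ?_ h2
  obtain ⟨A, hA⟩ : ∃ A, A = ‖X (((3 + s : ℝ) : ℂ) + t * I)‖ := ⟨_, rfl⟩
  obtain ⟨B, hB⟩ : ∃ B, B = ‖X (((3 - s : ℝ) : ℂ) + t * I)‖ := ⟨_, rfl⟩
  rw [← hA, ← hB] at h1 ⊢
  have hA0 : 0 ≤ A := by rw [hA]; exact norm_nonneg _
  have hB0 : 0 ≤ B := by rw [hB]; exact norm_nonneg _
  obtain ⟨y, hy⟩ : ∃ y, y = min m (1 / 2) * s := ⟨_, rfl⟩
  have hy0 : 0 ≤ y := by rw [hy]; positivity
  have hym : y ≤ m * s := by rw [hy]; exact mul_le_mul_of_nonneg_right (min_le_left _ _) hs.le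
  have hy2 : y ≤ 1 / 2 := by
    rw [hy]
    have := min_le_right m (1 / 2)
    have h0 : 0 ≤ min m (1 / 2) := by positivity
    nlinarith
  rw [← hy]
  have h3 : 1 + 2 * y ≤ Real.exp (m * ((3 + s) - (3 - s))) := by
    have := Real.add_one_le_exp (m * ((3 + s) - (3 - s)))
    linarith
  have h4 : B * (1 + 2 * y) ≤ A := (mul_le_mul_of_nonneg_left h3 hB0).trans h1
  have h5 : B * (1 + 2 * y) * (1 - y) ≤ A * (1 - y) := mul_le_mul_of_nonneg_right h4 (by linarith)
  nlinarith [mul_nonneg hB0 (mul_nonneg hy0 (by linarith : 0 ≤ 1 - 2 * y))]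

/-- **The local count.** -/
theorem FF_count (h : Sy X) (hcf : CF κ H X Z) : ∃ K : ℝ, 0 < K ∧ ∀ (s t : ℝ) (ω : ℂ), 0 < s → s ≤ 1 → ‖ω‖ = 1 → -1 ≤ t →
    ∀ S : Finset ℂ, (∀ z ∈ S, |z.re| ≤ 1 / 2 ∧ |z.im - t| ≤ 1 / 2) →
    ∑ z ∈ S, (analyticOrderNatAt (FF X s ω) z : ℝ) ≤ K * (Real.log (3 + t) + Real.log (1 / s)) := by
  obtain ⟨c, hc, hlow⟩ := FF_low h hcf
  obtain ⟨K, hK, hbox⟩ := box h hcf 12 (by norm_num)
  have hl2 : 0 < Real.log 2 := Real.log_pos (by norm_num)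
  obtain ⟨E, hE⟩ : ∃ E : ℝ, E = |Real.log (2 / c)| / Real.log 2 := ⟨_, rfl⟩
  have hE0 : 0 ≤ E := by rw [hE]; positivity
  refine ⟨(K + E + 1) / Real.log 2, by positivity, fun s t ω hs hs1 hω ht S hS => ?_⟩
  have hd := FF_diff h s ω
  have hXp : 0 < ‖X (((3 + s : ℝ) : ℂ) + t * I)‖ := norm_pos_iff.2 (h.pos_right (by linarith)).1
  have hl := hlow s t ω hs hs1 hω ht
  have hne : FF X s ω (3 + t * I) ≠ 0 := by
    rw [← norm_pos_iff]
    exact lt_of_lt_of_le (by positivity) hl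
  have hlog : Real.log 2 ≤ Real.log (3 + t) := Real.log_le_log (by norm_num) (by linarith)
  have hjc := Pool.Agent.W186.LH.jc hd (c := 3 + t * I) (r := 4) (R := 8)
    (M := 2 * (Real.exp (K * Real.log (3 + t)) * ‖X (((3 + s : ℝ) : ℂ) + t * I)‖)) (by norm_num) (by norm_num)
    (by
      intro w hw
      rw [mem_sphere_iff_norm] at hw
      have h1 := Complex.abs_re_le_norm (w - (3 + t * I))
      have h2 := Complex.abs_im_le_norm (w - (3 + t * I))
      rw [hw] at h1 h2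
      simp at h1 h2
      obtain ⟨h3, h4⟩ := abs_le.1 h1
      unfold FF
      refine (norm_sub_le _ _).trans ?_
      rw [norm_mul, hω, one_mul]
      have g1 := hbox t (w + s) (3 + s) ht (by
        rw [Complex.add_re, Complex.ofReal_re, abs_le]
        constructor <;> linarith) (by
        rw [Complex.add_im, Complex.ofReal_im, add_zero]
        linarith) (by linarith) (by linarith)
      have g2 := hbox t (w - s) (3 + s) ht (by
        rw [Complex.sub_re, Complex.ofReal_re, abs_le]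
        constructor <;> linarith) (by
        rw [Complex.sub_im, Complex.ofReal_im, sub_zero]
        linarith) (by linarith) (by linarith)
      linarith) hne S (by
      intro z hz
      obtain ⟨h1, h2⟩ := hS z hz
      rw [mem_closedBall, dist_eq_norm]
      refine (Complex.norm_le_abs_re_add_abs_im _).trans ?_
      simp
      obtain ⟨h3, h4⟩ := abs_le.1 h1
      have h5 : |z.re - 3| ≤ 7 / 2 := by
        rw [abs_le]
        constructor <;> linarith
      linarith)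
  have e : (8 / 4 : ℝ) = 2 := by norm_num
  rw [e] at hjc
  obtain ⟨n, hn⟩ : ∃ n : ℕ, n = ∑ z ∈ S, analyticOrderNatAt (FF X s ω) z := ⟨_, rfl⟩
  rw [← hn] at hjc
  have hnr : ∑ z ∈ S, (analyticOrderNatAt (FF X s ω) z : ℝ) = n := by
    rw [hn]
    push_cast
    rfl
  rw [hnr]
  have h1 : (2 : ℝ) ^ n * (c * s) ≤ 2 * Real.exp (K * Real.log (3 + t)) := by
    refine le_of_mul_le_mul_right ?_ hXp
    calc (2 : ℝ) ^ n * (c * s) * ‖X (((3 + s : ℝ) : ℂ) + t * I)‖
        = (2 : ℝ) ^ n * (c * s * ‖X (((3 + s : ℝ) : ℂ) + t * I)‖) := by ring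
      _ ≤ (2 : ℝ) ^ n * ‖FF X s ω (3 + t * I)‖ := by gcongr
      _ ≤ _ := hjc
      _ = _ := by ring
  have h2 : (n : ℝ) * Real.log 2 + (Real.log c + Real.log s) ≤ Real.log 2 + K * Real.log (3 + t) := by
    have h3 := Real.log_le_log (by positivity) h1
    rw [Real.log_mul (by positivity) (by positivity), Real.log_pow, Real.log_mul hc.ne' hs.ne',
      Real.log_mul (by norm_num) (Real.exp_pos _).ne', Real.log_exp] at h3
    exact h3
  have h3 : Real.log 2 - Real.log c ≤ E * Real.log (3 + t) := by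
    rw [← Real.log_div (by norm_num) hc.ne']
    calc Real.log (2 / c) ≤ E * Real.log 2 := by
          rw [hE, div_mul_cancel₀ _ hl2.ne']
          exact le_abs_self _
      _ ≤ _ := mul_le_mul_of_nonneg_left hlog hE0
  have h4 : Real.log (1 / s) = -Real.log s := by rw [one_div, Real.log_inv]
  have h5 : 0 ≤ -Real.log s := by
    have := Real.log_nonpos hs.le hs1
    linarith
  rw [div_mul_eq_mul_div, le_div_iff₀ hl2, h4]
  have h6 : 0 ≤ Real.log (3 + t) := hl2.le.trans hlog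
  nlinarith [mul_nonneg (by positivity : 0 ≤ K + E) h5]

end Pool.Agent.Q246.SA
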