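import Pool.Agent.Q246.SA.Tot
import Pool.Agent.Q246.NC.Fin2

set_option autoImplicit false

/-!
# Averages of shifts of completed L-functions: final form
-/

namespace Pool.Agent.Q246.SA

open Complex Filter Topology Polynomial Set Metric
open Pool.Agent.Y671.GL
open Pool.Agent.Q246.NC
open scoped ComplexConjugate

/-- the data -/
theorem full_sy {κ : ℝ} {Λ : ℂ → ℂ} (h : Full κ Λ) : ∃ (v : ℂ) (H X Z : ℂ → ℂ), v ≠ 0 ∧
    (∀ z, X z = v * Λ (1 / 2 + z)) ∧ CF κ H X Z ∧ Sy X ∧ OffB X := by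
  obtain ⟨v, H, X, Z, hv, hX, g, hst, hA, hL, hH, -, -⟩ := h.data
  have hXd := g.cg.cf.diff
  have hXs := g.cg.cf.symm
  obtain ⟨K0, hK0, hslow⟩ := g.cg.slow
  have hne : ∃ z, X z ≠ 0 := by
    refine ⟨1, fun h0 => ?_⟩
    have := hst 1 h0
    norm_num at this
  have hz0 : ∃ z, X z = 0 := by
    obtain ⟨c0, T0, hc0, hT0, htot⟩ := Pool.Agent.Y423.GL.totd κ H _ Z h.cls.half g.cg hA 1 le_rfl
    obtain ⟨Y, hY1, hY2⟩ := htot 0 T0 le_rfl (by
      have : 0 ≤ Real.log T0 := Real.log_nonneg (by linarith)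
      simpa using this)
    rcases Y.eq_empty_or_nonempty with h0 | ⟨s, hs⟩
    · exfalso
      rw [h0, Finset.sum_empty] at hY2
      have h1 : 0 < Real.log T0 := Real.log_pos (by linarith)
      have h2 : 0 < c0 * T0 * Real.log T0 := by positivity
      linarith
    · have := (hY1 s hs).1
      rw [iteratedDeriv_zero] at this
      exact ⟨s, this⟩
  refine ⟨v, H, X, Z, hv, hX, g.cg.cf, ⟨hXd, hXs, hz0, hst, approx_symm hXd hXs hne hK0 hslow⟩, ?_⟩
  intro c hc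
  obtain ⟨C, hC, hB⟩ := h.cls.off c hc
  refine ⟨C, hC, fun d T hd hT S hS => ?_⟩
  have hX' : X = fun z => v * (fun z => Λ (1 / 2 + z)) z := funext hX
  have hdd : Differentiable ℂ (fun z => Λ (1 / 2 + z)) := h.cls.diff.comp (by fun_prop)
  refine le_trans (le_of_eq ?_) (hB d T hd hT S (fun s hs => ?_))
  · refine Finset.sum_congr rfl fun s _ => ?_
    rw [hX', ordNat_const hv hdd]
  · obtain ⟨h1, h2⟩ := hS s hs
    rw [hX] at h1
    exact ⟨(mul_eq_zero.1 h1).resolve_left hv, h2⟩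

/-- zeros with imaginary part in `(0, T]` -/
def ZS (F : ℂ → ℂ) (T : ℝ) : Set ℂ := {s | F s = 0 ∧ 0 < s.im ∧ s.im ≤ T}

/-- those off the line `Re s = a` or multiple -/
def ES (a : ℝ) (F : ℂ → ℂ) (T : ℝ) : Set ℂ := {s | s ∈ ZS F T ∧ (s.re ≠ a ∨ deriv F s = 0)}

/-- the average -/
noncomputable def Av (Λ : ℂ → ℂ) (h : ℝ) (u : ℂ) (s : ℂ) : ℂ := Λ (s + h) + u * Λ (s - h)

theorem numL_fin {F : ℂ → ℂ} {A : Set ℂ} (hA : A.Finite) :
    (numL F A : ℝ) = ∑ s ∈ hA.toFinset, (analyticOrderNatAt F s : ℝ) := by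
  unfold numL
  rw [finsum_mem_eq_finite_toFinset_sum _ hA]
  push_cast
  rfl

theorem numL_mono {F : ℂ → ℂ} {A B : Set ℂ} (hB : B.Finite) (h : A ⊆ B) : (numL F A : ℝ) ≤ numL F B := by
  rw [numL_fin hB, numL_fin (hB.subset h)]
  apply Finset.sum_le_sum_of_subset_of_nonneg
  · intro s hs
    rw [Set.Finite.mem_toFinset] at hs ⊢
    exact h hs
  · intro s _ _
    exact Nat.cast_nonneg _

section X
variable {X H Z : ℂ → ℂ} {κ : ℝ}

theorem FF_ne_one (h : Sy X) {s : ℝ} (hs : 0 < s) {ω : ℂ} (hω : ‖ω‖ = 1) : ∃ z, FF X s ω z ≠ 0 :=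
  ⟨1, fun h0 => by
    have := FF_strip h hs hω h0
    norm_num at this⟩

theorem FF_fin (h : Sy X) {s : ℝ} (hs : 0 < s) {ω : ℂ} (hω : ‖ω‖ = 1) (T : ℝ) : (ZS (FF X s ω) T).Finite := by
  have hK : IsCompact (Icc (-(1 / 2 : ℝ)) (1 / 2) ×ℂ Icc (0 : ℝ) T) := isCompact_Icc.reProdIm isCompact_Icc
  refine (Pool.Agent.W186.LH.zfin (FF_diff h s ω) (FF_ne_one h hs hω) hK).subset ?_
  rintro b ⟨h2, h3, h4⟩
  have := abs_le.1 (FF_strip h hs hω h2)
  exact ⟨⟨⟨this.1, this.2⟩, h3.le, h4⟩, h2⟩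

/-- the two bounds -/
theorem FF_final (h : Sy X) (hcf : CF κ H X Z) (hκ2 : 1 / 2 ≤ κ) (hoff : OffB X) {c : ℝ} (hc : c < 1) :
    ∃ C : ℝ, 0 < C ∧ ∀ (s T : ℝ) (ω : ℂ), 2 ≤ T → 1 / Real.log T ≤ s → s ≤ 1 → ‖ω‖ = 1 →
      (numL (FF X s ω) (ES 0 (FF X s ω) T) : ℝ) ≤ C * T ^ (-(c * s)) * Real.log T * numL (FF X s ω) (ZS (FF X s ω) T) ∧
      (numL (FF X s ω) (ES 0 (FF X s ω) T) : ℝ) ≤ C * T ^ (1 - c * s) * Real.log T ^ 2 := by
  -- reduction to `0 ≤ c`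
  wlog hc0 : 0 ≤ c generalizing c
  · obtain ⟨C, hC, h1⟩ := this (c := 0) (by norm_num) le_rfl
    refine ⟨C, hC, fun s T ω hT hsT hs1 hω => ?_⟩
    obtain ⟨h2, h3⟩ := h1 s T ω hT hsT hs1 hω
    have hlT : 0 < Real.log T := Real.log_pos (by linarith)
    have hs : 0 < s := lt_of_lt_of_le (by positivity) hsT
    push Not at hc0
    have hcs : c * s ≤ 0 * s := mul_le_mul_of_nonneg_right hc0.le hs.le
    have g1 : T ^ (-(0 * s)) ≤ T ^ (-(c * s)) := Real.rpow_le_rpow_of_exponent_le (by linarith) (by linarith)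
    have g2 : T ^ (1 - 0 * s) ≤ T ^ (1 - c * s) := Real.rpow_le_rpow_of_exponent_le (by linarith) (by linarith)
    refine ⟨h2.trans ?_, h3.trans ?_⟩
    · gcongr
    · gcongr
  obtain ⟨C1, hC1, hexc⟩ := FF_exc h hcf hoff hc0 hc
  obtain ⟨c2, T0, hc2, hT0, htot⟩ := FF_tot h hcf hκ2
  have hl2 : 0 < Real.log 2 := Real.log_pos (by norm_num)
  have hlT00 : 0 < Real.log T0 := Real.log_pos (by linarith)
  refine ⟨C1 + C1 / c2 + T0 / Real.log 2, by positivity, fun s T ω hT hsT hs1 hω => ?_⟩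
  have hT1 : 0 < T := by linarith
  have hlT : 0 < Real.log T := Real.log_pos (by linarith)
  have hs : 0 < s := lt_of_lt_of_le (by positivity) hsT
  have hcs0 : 0 ≤ c * s := by positivity
  have hcs1 : c * s ≤ 1 := by nlinarith
  have hfin := FF_fin h hs hω T
  have hsub : ES 0 (FF X s ω) T ⊆ ZS (FF X s ω) T := fun z hz => hz.1
  have hfinE := hfin.subset hsub
  have hE : (numL (FF X s ω) (ES 0 (FF X s ω) T) : ℝ) ≤ C1 * T ^ (1 - c * s) * Real.log T ^ 2 := by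
    rw [numL_fin hfinE]
    refine hexc s T ω hT hsT hs1 hω _ fun z hz => ?_
    rw [Set.Finite.mem_toFinset] at hz
    exact ⟨hz.1.1, hz.1.2.1, hz.1.2.2, hz.2⟩
  have hP : 0 < T ^ (-(c * s)) := Real.rpow_pos_of_pos hT1 _
  have hPT : T ^ (1 - c * s) = T * T ^ (-(c * s)) := by
    rw [sub_eq_add_neg, Real.rpow_add hT1, Real.rpow_one]
  have hNZ : (0 : ℝ) ≤ numL (FF X s ω) (ZS (FF X s ω) T) := Nat.cast_nonneg _
  constructor
  · rcases le_or_gt T0 T with h5 | h5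
    · obtain ⟨S, hS1, hS2⟩ := htot s T ω h5 hsT hs1 hω
      have h6 : c2 * T * Real.log T ≤ numL (FF X s ω) (ZS (FF X s ω) T) := by
        refine hS2.trans ?_
        rw [numL_fin hfin]
        refine Finset.sum_le_sum_of_subset_of_nonneg ?_ fun _ _ _ => Nat.cast_nonneg _
        intro z hz
        rw [Set.Finite.mem_toFinset]
        exact hS1 z hz
      calc (numL (FF X s ω) (ES 0 (FF X s ω) T) : ℝ) ≤ C1 * T ^ (1 - c * s) * Real.log T ^ 2 := hE
        _ = C1 / c2 * T ^ (-(c * s)) * Real.log T * (c2 * T * Real.log T) := by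
            rw [hPT]
            field_simp
        _ ≤ C1 / c2 * T ^ (-(c * s)) * Real.log T * numL (FF X s ω) (ZS (FF X s ω) T) := by gcongr
        _ ≤ _ := by
            have g1 : 0 ≤ C1 + T0 / Real.log 2 := by positivity
            have g2 : 0 ≤ T ^ (-(c * s)) * Real.log T * numL (FF X s ω) (ZS (FF X s ω) T) := by positivity
            nlinarith [mul_nonneg g1 g2]
    · have h6 : (numL (FF X s ω) (ES 0 (FF X s ω) T) : ℝ) ≤ numL (FF X s ω) (ZS (FF X s ω) T) := numL_mono hfin hsub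
      have h7 : 1 / T0 ≤ T ^ (-(c * s)) := by
        calc 1 / T0 ≤ 1 / T := one_div_le_one_div_of_le hT1 h5.le
          _ = T ^ (-1 : ℝ) := by rw [Real.rpow_neg_one, one_div]
          _ ≤ _ := Real.rpow_le_rpow_of_exponent_le (by linarith) (by linarith)
      have h8 : Real.log 2 ≤ Real.log T := Real.log_le_log (by norm_num) hT
      have h9 : 1 ≤ T0 / Real.log 2 * T ^ (-(c * s)) * Real.log T := by
        calc (1 : ℝ) = T0 / Real.log 2 * (1 / T0) * Real.log 2 := by field_simp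
          _ ≤ _ := by gcongr
      have h10 : 1 ≤ (C1 + C1 / c2 + T0 / Real.log 2) * T ^ (-(c * s)) * Real.log T := by
        have g1 : 0 ≤ C1 + C1 / c2 := by positivity
        have g2 : 0 ≤ T ^ (-(c * s)) * Real.log T := by positivity
        nlinarith [mul_nonneg g1 g2]
      refine h6.trans ?_
      exact le_mul_of_one_le_left hNZ h10
  · refine hE.trans ?_
    have g1 : 0 ≤ C1 / c2 + T0 / Real.log 2 := by positivity
    have g2 : 0 ≤ T ^ (1 - c * s) * Real.log T ^ 2 := by positivity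
    nlinarith [mul_nonneg g1 g2]

end X

/-! ### translation -/

theorem order_tr {F G : ℂ → ℂ} {v : ℂ} {a : ℝ} (hv : v ≠ 0) (hF : Differentiable ℂ F)
    (hG : ∀ s, G s = v * F (s - a)) (s : ℂ) : analyticOrderNatAt G s = analyticOrderNatAt F (s - a) := by
  have h1 : G = (fun _ => v) * (F ∘ fun s => s - a) := by
    funext z
    rw [hG z]
    rfl
  have hp : AnalyticAt ℂ (fun s : ℂ => s - a) s := by fun_prop
  have hp' : deriv (fun s : ℂ => s - a) s ≠ 0 := by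
    rw [deriv_sub_const, deriv_id'']
    exact one_ne_zero
  have h2 : analyticOrderAt (F ∘ fun s => s - a) s = analyticOrderAt F (s - a) :=
    analyticOrderAt_comp_of_deriv_ne_zero hp hp'
  have h3 : analyticOrderAt (fun _ : ℂ => v) s = 0 := by
    rw [AnalyticAt.analyticOrderAt_eq_zero analyticAt_const]
    exact hv
  have h4 : analyticOrderAt G s = analyticOrderAt F (s - a) := by
    rw [h1, analyticOrderAt_mul analyticAt_const ((hF.analyticAt _).comp hp), h2, h3, zero_add]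
  unfold analyticOrderNatAt
  rw [h4]

theorem num_tr {F G : ℂ → ℂ} {v : ℂ} {a : ℝ} (hv : v ≠ 0) (hF : Differentiable ℂ F)
    (hG : ∀ s, G s = v * F (s - a)) (A : Set ℂ) : numL G ((fun z => z + (a : ℂ)) '' A) = numL F A := by
  unfold numL
  rw [finsum_mem_image (add_left_injective (a : ℂ)).injOn]
  refine finsum_congr fun z => finsum_congr fun _ => ?_
  rw [order_tr hv hF hG]
  congr 1
  ring

theorem deriv_tr {F G : ℂ → ℂ} {v : ℂ} {a : ℝ} (hF : Differentiable ℂ F)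
    (hG : ∀ s, G s = v * F (s - a)) (s : ℂ) : deriv G s = v * deriv F (s - a) := by
  have h1 : G = fun s => v * F (s - a) := funext hG
  rw [h1]
  exact (((hF _).hasDerivAt.comp_sub_const _ _).const_mul v).deriv

theorem ZS_tr {F G : ℂ → ℂ} {v : ℂ} {a : ℝ} (hv : v ≠ 0)
    (hG : ∀ s, G s = v * F (s - a)) (T : ℝ) : ZS G T = (fun z => z + (a : ℂ)) '' ZS F T := by
  ext s
  constructor
  · rintro ⟨h1, h2, h3⟩
    refine ⟨s - a, ⟨?_, ?_, ?_⟩, by simp⟩
    · rw [hG] at h1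
      exact (mul_eq_zero.1 h1).resolve_left hv
    · simpa using h2
    · simpa using h3
  · rintro ⟨z, ⟨h1, h2, h3⟩, rfl⟩
    refine ⟨?_, by simpa using h2, by simpa using h3⟩
    show G (z + a) = 0
    rw [hG, add_sub_cancel_right, h1, mul_zero]

theorem ES_tr {F G : ℂ → ℂ} {v : ℂ} {a : ℝ} (hv : v ≠ 0) (hF : Differentiable ℂ F)
    (hG : ∀ s, G s = v * F (s - a)) (T : ℝ) : ES a G T = (fun z => z + (a : ℂ)) '' ES 0 F T := by
  ext s
  have hd := deriv_tr hF hG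
  constructor
  · rintro ⟨h1, h2⟩
    rw [ZS_tr hv hG] at h1
    obtain ⟨z, hz, rfl⟩ := h1
    refine ⟨z, ⟨hz, ?_⟩, rfl⟩
    rcases h2 with h2 | h2
    · left
      intro h3
      apply h2
      simp [h3]
    · right
      have h3 : deriv G (z + a) = 0 := h2
      rw [hd, add_sub_cancel_right] at h3
      exact (mul_eq_zero.1 h3).resolve_left hv
  · rintro ⟨z, ⟨h1, h2⟩, rfl⟩
    refine ⟨?_, ?_⟩
    · rw [ZS_tr hv hG]
      exact ⟨z, h1, rfl⟩
    · rcases h2 with h2 | h2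
      · left
        intro h3
        apply h2
        simpa using h3
      · right
        show deriv G (z + a) = 0
        rw [hd, add_sub_cancel_right, h2, mul_zero]

/-- **The theorem for the line `Re s = a`.** -/
theorem shifts_of {κ : ℝ} {X H Z Λ : ℂ → ℂ} (hcf : CF κ H X Z) (hκ2 : 1 / 2 ≤ κ) (hsy : Sy X) (hoff : OffB X)
    {v0 : ℂ} (hv0 : v0 ≠ 0) {a : ℝ} (hX : ∀ z, Λ ((a : ℂ) + z) = v0 * X z) :
    (∀ (h : ℝ) (u : ℂ), (1 / 2 < h ∨ (0 < h ∧ ∀ s : ℂ, Λ s = 0 → s.re = a)) → ‖u‖ = 1 →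
      ∀ s : ℂ, Av Λ h u s = 0 → s.re = a ∧ deriv (Av Λ h u) s ≠ 0) ∧
    (∀ (h : ℝ) (u : ℂ) (T : ℝ), 0 < h → ‖u‖ = 1 → (ZS (Av Λ h u) T).Finite) ∧
    ∀ c : ℝ, c < 1 → ∃ C : ℝ, 0 < C ∧ ∀ (h T : ℝ) (u : ℂ), 2 ≤ T → 1 / Real.log T ≤ h → h ≤ 1 → ‖u‖ = 1 →
      (numL (Av Λ h u) (ES a (Av Λ h u) T) : ℝ) ≤ C * T ^ (-(c * h)) * Real.log T * numL (Av Λ h u) (ZS (Av Λ h u) T) ∧
      (numL (Av Λ h u) (ES a (Av Λ h u) T) : ℝ) ≤ C * T ^ (1 - c * h) * Real.log T ^ 2 := by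
  have key : ∀ (s : ℝ) (u z : ℂ), Av Λ s u z = v0 * FF X s (-u) (z - a) := by
    intro s u z
    unfold Av FF
    have e1 : z + (s : ℂ) = (a : ℂ) + (z - a + s) := by ring
    have e2 : z - (s : ℂ) = (a : ℂ) + (z - a - s) := by ring
    rw [e1, e2, hX, hX]
    ring
  have hu' : ∀ u : ℂ, ‖u‖ = 1 → ‖-u‖ = 1 := fun u hu => by rw [norm_neg, hu]
  refine ⟨fun s u hs hu z hz => ?_, fun s u T hs hu => ?_, fun c hc => ?_⟩
  · rw [key, mul_eq_zero] at hz
    have hz' := hz.resolve_left hv0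
    have hd := deriv_tr (FF_diff hsy s (-u)) (key s u) z
    by_contra hcon
    have hbad : (z - a).re ≠ 0 ∨ deriv (FF X s (-u)) (z - a) = 0 := by
      by_contra h2
      push Not at h2
      apply hcon
      refine ⟨?_, ?_⟩
      · have := h2.1
        simp at this
        linarith
      · rw [hd]
        exact mul_ne_zero hv0 h2.2
    have hs0 : 0 < s := by
      rcases hs with hs | hs
      · linarith
      · exact hs.1
    obtain ⟨b, hb, h3⟩ := FF_bad hsy hs0 (hu' u hu) hz' hbad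
    rcases hs with hs | hs
    · have h4 := hsy.strip b hb
      have h5 : b.re ^ 2 ≤ (1 / 2) ^ 2 := by
        rw [← sq_abs]
        exact pow_le_pow_left₀ (abs_nonneg _) h4 2
      nlinarith [sq_nonneg (z - a).re, sq_nonneg ((z - a).im - b.im)]
    · have h4 := hs.2 ((a : ℂ) + b) (by rw [hX, hb, mul_zero])
      have h5 : b.re = 0 := by
        rw [Complex.add_re, Complex.ofReal_re] at h4
        linarith
      rw [h5] at h3
      nlinarith [sq_nonneg (z - a).re, sq_nonneg ((z - a).im - b.im)]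
  · rw [ZS_tr hv0 (key s u)]
    exact (FF_fin hsy hs (hu' u hu) T).image _
  · obtain ⟨C, hC, h1⟩ := FF_final hsy hcf hκ2 hoff hc
    refine ⟨C, hC, fun s T u hT hsT hs1 hu => ?_⟩
    rw [ZS_tr hv0 (key s u), ES_tr hv0 (FF_diff hsy s (-u)) (key s u), num_tr hv0 (FF_diff hsy s (-u)) (key s u),
      num_tr hv0 (FF_diff hsy s (-u)) (key s u)]
    exact h1 s T (-u) hT hsT hs1 (hu' u hu)

/-- for functions of the class `Full` -/
theorem shifts {κ : ℝ} {Λ₀ Λ : ℂ → ℂ} (h : Full κ Λ₀) {v0 : ℂ} (hv0 : v0 ≠ 0) {a : ℝ}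
    (hΛ : ∀ z, Λ ((a : ℂ) + z) = v0 * Λ₀ (1 / 2 + z)) :
    (∀ (h : ℝ) (u : ℂ), (1 / 2 < h ∨ (0 < h ∧ ∀ s : ℂ, Λ s = 0 → s.re = a)) → ‖u‖ = 1 →
      ∀ s : ℂ, Av Λ h u s = 0 → s.re = a ∧ deriv (Av Λ h u) s ≠ 0) ∧
    (∀ (h : ℝ) (u : ℂ) (T : ℝ), 0 < h → ‖u‖ = 1 → (ZS (Av Λ h u) T).Finite) ∧
    ∀ c : ℝ, c < 1 → ∃ C : ℝ, 0 < C ∧ ∀ (h T : ℝ) (u : ℂ), 2 ≤ T → 1 / Real.log T ≤ h → h ≤ 1 → ‖u‖ = 1 →
      (numL (Av Λ h u) (ES a (Av Λ h u) T) : ℝ) ≤ C * T ^ (-(c * h)) * Real.log T * numL (Av Λ h u) (ZS (Av Λ h u) T) ∧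
      (numL (Av Λ h u) (ES a (Av Λ h u) T) : ℝ) ≤ C * T ^ (1 - c * h) * Real.log T ^ 2 := by
  obtain ⟨v, H, X, Z, hv, hX, hcf, hsy, hoff⟩ := full_sy h
  refine shifts_of hcf h.cls.half hsy hoff (v0 := v0 * v⁻¹) (mul_ne_zero hv0 (inv_ne_zero hv)) fun z => ?_
  rw [hΛ, hX]
  field_simp

end Pool.Agent.Q246.SA
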