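import Pool.Agent.Q246.SA.Cnt
import Pool.Agent.Q246.NC.Off

set_option autoImplicit false

/-!
# The exceptional zeros and all zeros of `X(z + h) - ω X(z - h)`
-/

namespace Pool.Agent.Q246.SA

open Complex Filter Topology Polynomial Set Metric
open Pool.Agent.Y671.GL
open Pool.Agent.Q246.NC (OffB)
open scoped ComplexConjugate

variable {X : ℂ → ℂ}

theorem FF_strip (h : Sy X) {s : ℝ} (hs : 0 < s) {ω : ℂ} (hω : ‖ω‖ = 1) {z : ℂ} (h0 : FF X s ω z = 0) :
    |z.re| ≤ 1 / 2 := by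
  by_cases h1 : z.re = 0
  · rw [h1, abs_zero]
    norm_num
  · obtain ⟨b, hb, h2⟩ := FF_bad h hs hω h0 (Or.inl h1)
    have h3 := h.strip b hb
    have h4 : b.re ^ 2 ≤ (1 / 2) ^ 2 := by
      rw [← sq_abs]
      exact pow_le_pow_left₀ (abs_nonneg _) h3 2
    have h5 : z.re ^ 2 ≤ (1 / 2) ^ 2 := by nlinarith [sq_nonneg s, sq_nonneg (z.im - b.im)]
    have := sq_le_sq.1 h5
    rwa [abs_of_pos (by norm_num : (0 : ℝ) < 1 / 2)] at this

theorem sum_split {ι : Type*} (S : Finset ι) (B : Finset ℂ) (w : ι → ℝ) (hw : ∀ z ∈ S, 0 ≤ w z)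
    (P : ι → ℂ → Prop) [∀ z b, Decidable (P z b)] (hP : ∀ z ∈ S, ∃ b ∈ B, P z b) {M : ℝ}
    (hM : ∀ b ∈ B, ∑ z ∈ S.filter (fun z => P z b), w z ≤ M) : ∑ z ∈ S, w z ≤ B.card * M := by
  have h1 : ∑ z ∈ S, w z ≤ ∑ z ∈ S, ∑ b ∈ B, if P z b then w z else 0 := by
    refine Finset.sum_le_sum fun z hz => ?_
    obtain ⟨b, hb, hp⟩ := hP z hz
    have h2 : (if P z b then w z else 0) ≤ ∑ b ∈ B, if P z b then w z else 0 := by
      refine Finset.single_le_sum (f := fun b => if P z b then w z else 0) (fun b _ => ?_) hb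
      split_ifs
      · exact hw z hz
      · exact le_rfl
    rwa [if_pos hp] at h2
  rw [Finset.sum_comm] at h1
  refine h1.trans ?_
  rw [← nsmul_eq_mul]
  refine Finset.sum_le_card_nsmul _ _ _ fun b hb => ?_
  rw [← Finset.sum_filter]
  exact hM b hb

theorem ord_pos {f : ℂ → ℂ} (hf : Differentiable ℂ f) (hne : ∃ z, f z ≠ 0) {b : ℂ} (hb : f b = 0) :
    (1 : ℝ) ≤ (analyticOrderNatAt f b : ℝ) := by
  have h2 : analyticOrderAt f b ≠ 0 := by
    rw [Ne, (hf.analyticAt b).analyticOrderAt_eq_zero]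
    exact fun h3 => h3 hb
  have h3 := Pool.Agent.Q246.NC.ord_ne_top hf hne b
  have h4 : analyticOrderNatAt f b ≠ 0 := by
    intro h5
    have h6 := Nat.cast_analyticOrderNatAt h3
    rw [h5] at h6
    exact h2 h6.symm
  have h5 : 1 ≤ analyticOrderNatAt f b := Nat.one_le_iff_ne_zero.2 h4
  exact_mod_cast h5

/-- the zeros of `X` at a distance from the line -/
theorem far_zeros (h : Sy X) (hoff : OffB X) {c : ℝ} (hc0 : 0 ≤ c) (hc : c < 1) (R : ℝ) (hR : 0 ≤ R) :
    ∃ C : ℝ, 0 < C ∧ ∀ s T : ℝ, 0 ≤ s → s ≤ 1 → 2 ≤ T → ∃ B : Finset ℂ,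
      (∀ b, X b = 0 → s ≤ |b.re| → -R ≤ b.im → b.im ≤ T + R → b ∈ B) ∧
      (∀ b ∈ B, X b = 0 ∧ s ≤ |b.re| ∧ -R ≤ b.im ∧ b.im ≤ T + R) ∧
      (B.card : ℝ) ≤ C * T ^ (1 - c * s) * Real.log T := by
  classical
  have hl2 : 0 < Real.log 2 := Real.log_pos (by norm_num)
  obtain ⟨C1, hC1, hB⟩ := hoff c hc
  have hK0 : IsCompact (Icc (-(1 / 2 : ℝ)) (1 / 2) ×ℂ Icc (-R) 0) := isCompact_Icc.reProdIm isCompact_Icc
  have hfin0 := Pool.Agent.W186.LH.zfin h.diff ⟨1, h.ne_one⟩ hK0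
  obtain ⟨M0, hM0⟩ : ∃ M0 : ℝ, M0 = (hfin0.toFinset.card : ℝ) := ⟨_, rfl⟩
  have hM00 : 0 ≤ M0 := by rw [hM0]; exact Nat.cast_nonneg _
  obtain ⟨D, hD⟩ : ∃ D : ℝ, D = 1 + Real.log (1 + R) / Real.log 2 := ⟨_, rfl⟩
  have hD1 : 0 < D := by
    rw [hD]
    have : 0 ≤ Real.log (1 + R) := Real.log_nonneg (by linarith)
    positivity
  refine ⟨C1 * (1 + R) * D + M0 / Real.log 2, by positivity, fun s T hs0 hs1 hT => ?_⟩
  have hT0 : 0 < T := by linarith
  have hK : IsCompact (Icc (-(1 / 2 : ℝ)) (1 / 2) ×ℂ Icc (-R) (T + R)) := isCompact_Icc.reProdIm isCompact_Icc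
  have hfin := Pool.Agent.W186.LH.zfin h.diff ⟨1, h.ne_one⟩ hK
  refine ⟨hfin.toFinset.filter (fun b => s ≤ |b.re|), ?_, ?_, ?_⟩
  · intro b hb h1 h2 h3
    rw [Finset.mem_filter, Set.Finite.mem_toFinset]
    have h4 := abs_le.1 (h.strip b hb)
    exact ⟨⟨⟨⟨h4.1, h4.2⟩, h2, h3⟩, hb⟩, h1⟩
  · intro b hb
    rw [Finset.mem_filter, Set.Finite.mem_toFinset] at hb
    exact ⟨hb.1.2, hb.2, hb.1.1.2.1, hb.1.1.2.2⟩
  obtain ⟨B, hBd⟩ : ∃ B : Finset ℂ, B = hfin.toFinset.filter (fun b => s ≤ |b.re|) := ⟨_, rfl⟩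
  rw [← hBd]
  have hmem : ∀ b ∈ B, X b = 0 ∧ s ≤ |b.re| ∧ |b.re| ≤ 1 / 2 ∧ -R ≤ b.im ∧ b.im ≤ T + R := by
    intro b hb
    rw [hBd, Finset.mem_filter, Set.Finite.mem_toFinset] at hb
    exact ⟨hb.1.2, hb.2, h.strip b hb.1.2, hb.1.1.2.1, hb.1.1.2.2⟩
  have h1 : (B.card : ℝ) = ((B.filter (fun b => 0 < b.im)).card : ℝ) + ((B.filter (fun b => ¬ 0 < b.im)).card : ℝ) := by
    exact_mod_cast (Finset.card_filter_add_card_filter_not (s := B) (fun b => 0 < b.im)).symm
  have h2 : ((B.filter (fun b => ¬ 0 < b.im)).card : ℝ) ≤ M0 := by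
    rw [hM0]
    have : (B.filter (fun b => ¬ 0 < b.im)) ⊆ hfin0.toFinset := by
      intro b hb
      obtain ⟨h3, h4⟩ := Finset.mem_filter.1 hb
      rw [Set.Finite.mem_toFinset]
      obtain ⟨g1, g2, g3, g4, g5⟩ := hmem b h3
      have h4' := abs_le.1 g3
      exact ⟨⟨⟨h4'.1, h4'.2⟩, g4, not_lt.1 h4⟩, g1⟩
    exact_mod_cast Finset.card_le_card this
  have hTR : T + R ≤ (1 + R) * T := by nlinarith
  have h3 : ((B.filter (fun b => 0 < b.im)).card : ℝ) ≤ C1 * ((1 + R) * T) ^ (1 - c * s) * Real.log ((1 + R) * T) := by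
    refine le_trans ?_ (hB s ((1 + R) * T) hs0 (by nlinarith) (B.filter (fun b => 0 < b.im)) (fun b hb => ?_))
    · rw [Finset.card_eq_sum_ones, Nat.cast_sum]
      refine Finset.sum_le_sum fun b hb => ?_
      have := ord_pos h.diff ⟨1, h.ne_one⟩ (hmem b (Finset.mem_filter.1 hb).1).1
      simpa using this
    · obtain ⟨h3, h4⟩ := Finset.mem_filter.1 hb
      obtain ⟨g1, g2, g3, g4, g5⟩ := hmem b h3
      exact ⟨g1, g2, h4, g5.trans hTR⟩
  have hcs : 0 ≤ 1 - c * s := by nlinarith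
  have hcs1 : 1 - c * s ≤ 1 := by nlinarith
  have h4 : ((1 + R) * T) ^ (1 - c * s) ≤ (1 + R) * T ^ (1 - c * s) := by
    rw [Real.mul_rpow (by linarith) hT0.le]
    refine mul_le_mul_of_nonneg_right ?_ (Real.rpow_nonneg hT0.le _)
    calc (1 + R) ^ (1 - c * s) ≤ (1 + R) ^ (1 : ℝ) := Real.rpow_le_rpow_of_exponent_le (by linarith) hcs1
      _ = 1 + R := Real.rpow_one _
  have hlT : Real.log 2 ≤ Real.log T := Real.log_le_log (by norm_num) hT
  have hlT0 : 0 < Real.log T := lt_of_lt_of_le hl2 hlT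
  have h5 : Real.log ((1 + R) * T) ≤ D * Real.log T := by
    rw [Real.log_mul (by linarith) hT0.ne', hD, add_mul, one_mul]
    have h6 : 0 ≤ Real.log (1 + R) / Real.log 2 := by
      have : 0 ≤ Real.log (1 + R) := Real.log_nonneg (by linarith)
      positivity
    have h7 := mul_le_mul_of_nonneg_left hlT h6
    rw [div_mul_cancel₀ _ hl2.ne'] at h7
    linarith
  have hlog0 : 0 ≤ Real.log ((1 + R) * T) := Real.log_nonneg (by nlinarith)
  have hP1 : 1 ≤ T ^ (1 - c * s) := Real.one_le_rpow (by linarith) hcs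
  have h6 : M0 ≤ M0 / Real.log 2 * T ^ (1 - c * s) * Real.log T := by
    calc M0 = M0 / Real.log 2 * 1 * Real.log 2 := by field_simp
      _ ≤ _ := by gcongr
  calc (B.card : ℝ) ≤ C1 * ((1 + R) * T ^ (1 - c * s)) * (D * Real.log T) + M0 := by
        rw [h1]
        refine add_le_add (h3.trans ?_) h2
        gcongr
    _ ≤ C1 * ((1 + R) * T ^ (1 - c * s)) * (D * Real.log T) + M0 / Real.log 2 * T ^ (1 - c * s) * Real.log T := by
        linarith
    _ = _ := by ring

variable {κ : ℝ} {H Z : ℂ → ℂ}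

/-- **The exceptional zeros.** -/
theorem FF_exc (h : Sy X) (hcf : CF κ H X Z) (hoff : OffB X) {c : ℝ} (hc0 : 0 ≤ c) (hc : c < 1) :
    ∃ C : ℝ, 0 < C ∧ ∀ (s T : ℝ) (ω : ℂ), 2 ≤ T → 1 / Real.log T ≤ s → s ≤ 1 → ‖ω‖ = 1 → ∀ S : Finset ℂ,
      (∀ z ∈ S, FF X s ω z = 0 ∧ 0 < z.im ∧ z.im ≤ T ∧ (z.re ≠ 0 ∨ deriv (FF X s ω) z = 0)) →
      ∑ z ∈ S, (analyticOrderNatAt (FF X s ω) z : ℝ) ≤ C * T ^ (1 - c * s) * Real.log T ^ 2 := by
  classical
  obtain ⟨K, hK, hcount⟩ := FF_count h hcf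
  obtain ⟨C, hC, hfar⟩ := far_zeros h hoff hc0 hc (1 / 2) (by norm_num)
  refine ⟨C * (4 * K), by positivity, fun s T ω hT hsT hs1 hω S hS => ?_⟩
  have hT0 : 0 < T := by linarith
  have hlT : 0 < Real.log T := Real.log_pos (by linarith)
  have hs : 0 < s := lt_of_lt_of_le (by positivity) hsT
  obtain ⟨B, hB1, hB2, hB3⟩ := hfar s T hs.le hs1 hT
  have hP0 : 0 ≤ T ^ (1 - c * s) := Real.rpow_nonneg hT0.le _
  have hmain := sum_split S B (fun z => (analyticOrderNatAt (FF X s ω) z : ℝ)) (fun _ _ => Nat.cast_nonneg _)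
    (fun z b => |z.im - b.im| ≤ 1 / 2) (M := K * (4 * Real.log T)) (by
      intro z hz
      obtain ⟨h1, h2, h3, h4⟩ := hS z hz
      obtain ⟨b, hb, h5⟩ := FF_bad h hs hω h1 h4
      have h6 := h.strip b hb
      have h7 : |z.im - b.im| ≤ 1 / 2 := by
        have h8 : (z.im - b.im) ^ 2 ≤ |b.re| ^ 2 := by
          rw [sq_abs]
          nlinarith [sq_nonneg z.re, sq_nonneg s]
        have h9 := sq_le_sq.1 h8
        rw [abs_abs] at h9
        exact h9.trans h6
      have h8 : s ≤ |b.re| := by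
        have h9 : s ^ 2 ≤ |b.re| ^ 2 := by
          rw [sq_abs]
          nlinarith [sq_nonneg z.re, sq_nonneg (z.im - b.im)]
        have h10 := sq_le_sq.1 h9
        rwa [abs_abs, abs_of_pos hs] at h10
      obtain ⟨h9, h10⟩ := abs_le.1 h7
      exact ⟨b, hB1 b hb h8 (by linarith) (by linarith), h7⟩)
    (by
      intro b hb
      obtain ⟨h1, h2, h3, h4⟩ := hB2 b hb
      have h5 := hcount s b.im ω hs hs1 hω (by linarith) (S.filter (fun z => |z.im - b.im| ≤ 1 / 2)) (by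
        intro z hz
        obtain ⟨h5, h6⟩ := Finset.mem_filter.1 hz
        exact ⟨FF_strip h hs hω (hS z h5).1, h6⟩)
      refine h5.trans (mul_le_mul_of_nonneg_left ?_ hK.le)
      have h6 : Real.log (3 + b.im) ≤ 3 * Real.log T := by
        have h7 : 3 + b.im ≤ T ^ 3 := by nlinarith [sq_nonneg (T - 2), mul_pos hT0 hT0]
        calc Real.log (3 + b.im) ≤ Real.log (T ^ 3) := Real.log_le_log (by linarith) h7
          _ = 3 * Real.log T := by rw [Real.log_pow]; norm_num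
      have h7 : Real.log (1 / s) ≤ Real.log T := by
        apply Real.log_le_log (by positivity)
        have h8 : 1 / s ≤ Real.log T := by
          rw [div_le_iff₀ hs]
          rw [div_le_iff₀ hlT] at hsT
          linarith
        have h9 : Real.log T ≤ T := (Real.log_le_sub_one_of_pos hT0).trans (by linarith)
        linarith
      linarith)
  refine hmain.trans ?_
  calc (B.card : ℝ) * (K * (4 * Real.log T)) ≤ (C * T ^ (1 - c * s) * Real.log T) * (K * (4 * Real.log T)) := by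
        gcongr
    _ = _ := by ring

/-- zeros in disjoint windows -/
theorem windows {f : ℂ → ℂ} {T ρ w : ℝ} (hρ : 0 < ρ) (hT : 16 * ρ + 4 ≤ T) (hw : 0 ≤ w)
    (h : ∀ t : ℝ, T / 2 ≤ t → t ≤ T → ∃ S : Finset ℂ, (∀ z ∈ S, f z = 0 ∧ |z.im - t| ≤ ρ) ∧
      w ≤ ∑ z ∈ S, (analyticOrderNatAt f z : ℝ)) :
    ∃ S : Finset ℂ, (∀ z ∈ S, f z = 0 ∧ 0 < z.im ∧ z.im ≤ T) ∧
      T / (16 * ρ) * w ≤ ∑ z ∈ S, (analyticOrderNatAt f z : ℝ) := by
  classical
  have hT0 : 0 < T := by linarith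
  obtain ⟨m, hm⟩ : ∃ m : ℕ, m = ⌊T / (8 * ρ)⌋₊ := ⟨_, rfl⟩
  have hm1 : (m : ℝ) ≤ T / (8 * ρ) := by rw [hm]; exact Nat.floor_le (by positivity)
  have hm2 : T / (8 * ρ) < m + 1 := by rw [hm]; exact Nat.lt_floor_add_one _
  rw [le_div_iff₀ (by positivity)] at hm1
  rw [div_lt_iff₀ (by positivity)] at hm2
  obtain ⟨tk, htk⟩ : ∃ tk : ℕ → ℝ, tk = fun k : ℕ => T / 2 + 3 * ρ * ((k : ℝ) + 1) := ⟨_, rfl⟩
  have htT : ∀ k, T / 2 ≤ tk k := by
    intro k
    rw [htk]
    have : 0 ≤ 3 * ρ * ((k : ℝ) + 1) := by positivity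
    simp only
    linarith
  have hex : ∀ k : ℕ, ∃ S : Finset ℂ, k < m → (∀ z ∈ S, f z = 0 ∧ |z.im - tk k| ≤ ρ) ∧
      w ≤ ∑ z ∈ S, (analyticOrderNatAt f z : ℝ) := by
    intro k
    by_cases hk : k < m
    · have hk1 : (k : ℝ) + 1 ≤ m := by exact_mod_cast hk
      obtain ⟨S, hS⟩ := h (tk k) (htT k) (by
        rw [htk]
        have : 3 * ρ * ((k : ℝ) + 1) ≤ 3 * ρ * m := by gcongr
        simp only
        linarith)
      exact ⟨S, fun _ => hS⟩
    · exact ⟨∅, fun h => absurd h hk⟩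
  choose S hS using hex
  refine ⟨(Finset.range m).biUnion S, ?_, ?_⟩
  · intro s hs'
    rw [Finset.mem_biUnion] at hs'
    obtain ⟨k, hk', hsk⟩ := hs'
    rw [Finset.mem_range] at hk'
    obtain ⟨a1, a2⟩ := (hS k hk').1 s hsk
    rw [abs_le, htk] at a2
    simp only at a2
    have hk1 : (k : ℝ) + 1 ≤ m := by exact_mod_cast hk'
    have hk0 : (0 : ℝ) ≤ k := Nat.cast_nonneg k
    refine ⟨a1, ?_, ?_⟩
    · nlinarith [a2.1]
    · have : 3 * ρ * ((k : ℝ) + 1) ≤ 3 * ρ * m := by gcongr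
      linarith [a2.2]
  · rw [Finset.sum_biUnion]
    · calc T / (16 * ρ) * w ≤ m * w := by
            have : T / (16 * ρ) ≤ m := by
              rw [div_le_iff₀ (by positivity)]
              linarith
            gcongr
        _ = ∑ k ∈ Finset.range m, w := by
            rw [Finset.sum_const, Finset.card_range, nsmul_eq_mul]
        _ ≤ _ := Finset.sum_le_sum fun k hk => (hS k (Finset.mem_range.1 hk)).2
    · intro j hj' k hk'' hjk
      rw [Function.onFun, Finset.disjoint_left]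
      intro s hj hk'
      have hjm := Finset.mem_range.1 hj'
      have hkm := Finset.mem_range.1 hk''
      have a1 := abs_le.1 ((hS j hjm).1 s hj).2
      have a2 := abs_le.1 ((hS k hkm).1 s hk').2
      rw [htk] at a1 a2
      simp only at a1 a2
      apply hjk
      have b1 : (j : ℝ) - k < 1 := by
        by_contra hc
        push Not at hc
        nlinarith [a1.1, a1.2, a2.1, a2.2]
      have b2 : (k : ℝ) - j < 1 := by
        by_contra hc
        push Not at hc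
        nlinarith [a1.1, a1.2, a2.1, a2.2]
      have c1 : (j : ℝ) < k + 1 := by linarith
      have c2 : (k : ℝ) < j + 1 := by linarith
      have d1 : j < k + 1 := by exact_mod_cast c1
      have d2 : k < j + 1 := by exact_mod_cast c2
      omega

/-- **All zeros.** -/
theorem FF_tot (h : Sy X) (hcf : CF κ H X Z) (hκ2 : 1 / 2 ≤ κ) :
    ∃ c T0 : ℝ, 0 < c ∧ 2 ≤ T0 ∧ ∀ (s T : ℝ) (ω : ℂ), T0 ≤ T → 1 / Real.log T ≤ s → s ≤ 1 → ‖ω‖ = 1 →
      ∃ S : Finset ℂ, (∀ z ∈ S, FF X s ω z = 0 ∧ 0 < z.im ∧ z.im ≤ T) ∧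
        c * T * Real.log T ≤ ∑ z ∈ S, (analyticOrderNatAt (FF X s ω) z : ℝ) := by
  have hκ := hcf.κ_pos
  obtain ⟨C1, hC1, hU⟩ := Pool.Agent.Y423.GL.upX hcf
  obtain ⟨C, hC⟩ : ∃ C : ℝ, C = C1 + 1 / κ + 9 := ⟨_, rfl⟩
  have hκi : 0 < 1 / κ := by positivity
  have hC0 : 0 ≤ C := by rw [hC]; positivity
  obtain ⟨R, hR⟩ : ∃ R : ℝ, R = 8 * C + 1 := ⟨_, rfl⟩
  have hR1 : 1 ≤ R := by rw [hR]; linarith
  obtain ⟨R', hR'⟩ : ∃ R' : ℝ, R' = 2 * R + 2 * (1600 * R) + 1 := ⟨_, rfl⟩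
  obtain ⟨T1, hT1, hup⟩ := hU R' (by rw [hR']; linarith)
  obtain ⟨T2, hT2, hlo⟩ := Pool.Agent.Y423.GL.loX hcf (2 * R + 1) (by linarith) (1 / 2) (by norm_num)
  refine ⟨κ * R / 8 / (16 * (1600 * R)), max (max (2 * T1) (2 * T2)) (max (Real.exp 4) (16 * (1600 * R) + 4)), by positivity,
    le_trans (by linarith) ((le_max_right _ _).trans (le_max_left _ _)), ?_⟩
  intro s T ω hT hsT hs1 hω
  have g1 : 2 * T1 ≤ T := ((le_max_left _ _).trans (le_max_left _ _)).trans hT
  have g2 : 2 * T2 ≤ T := ((le_max_right _ _).trans (le_max_left _ _)).trans hT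
  have g3 : Real.exp 4 ≤ T := ((le_max_left _ _).trans (le_max_right _ _)).trans hT
  have g4 : 16 * (1600 * R) + 4 ≤ T := ((le_max_right _ _).trans (le_max_right _ _)).trans hT
  have hT0 : 0 < T := by linarith
  have hlT : 4 ≤ Real.log T := by
    rw [Real.le_log_iff_exp_le hT0]
    exact g3
  have hs : 0 < s := lt_of_lt_of_le (by positivity) hsT
  have hsL : 1 ≤ s * Real.log T := by
    rwa [div_le_iff₀ (by linarith)] at hsT
  obtain ⟨S, hS1, hS2⟩ := windows (f := FF X s ω) (T := T) (ρ := 1600 * R) (w := κ * Real.log T * R / 8) (by positivity) g4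
    (by positivity) (by
    intro t ht1 ht2
    have htpos : 0 < t := by linarith
    have hlt : Real.log T ≤ 2 * Real.log t := by
      have h3 : Real.log T ≤ Real.log (t ^ 2) := Real.log_le_log hT0 (by nlinarith)
      rw [Real.log_pow] at h3
      push_cast at h3
      linarith
    obtain ⟨L, hL⟩ : ∃ L : ℝ, L = κ * Real.log t := ⟨_, rfl⟩
    have hL1 : 1 ≤ L := by
      rw [hL]
      nlinarith
    have hL0 : 0 < L := by linarith
    have hnorm : ∀ x : ℝ, ‖((2 * R : ℝ) : ℂ) + x‖ ≤ 2 * R + |x| := by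
      intro x
      refine (norm_add_le _ _).trans ?_
      rw [Complex.norm_real, Complex.norm_real, Real.norm_of_nonneg (by linarith), Real.norm_eq_abs]
    have hloc : ∀ x : ℝ, |x| ≤ 1 → 0 < ‖H (I * t)‖ ∧ X (((2 * R + x : ℝ) : ℂ) + t * I) ≠ 0 ∧
        L / 2 ≤ (logDeriv X (((2 * R + x : ℝ) : ℂ) + t * I)).re ∧
        ‖H (I * t)‖ * Real.exp (L * (2 * R + x) - Real.log t) ≤ ‖X (((2 * R + x : ℝ) : ℂ) + t * I)‖ := by
      intro x hx
      have hx' := abs_le.1 hx
      obtain ⟨a1, a2, a3, a4⟩ := hlo t (((2 * R + x : ℝ) : ℂ)) (by linarith) (by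
        rw [Complex.norm_real, Real.norm_of_nonneg (by linarith)]
        linarith) (by rw [Complex.ofReal_re]; linarith)
      have e : (I * t + ((2 * R + x : ℝ) : ℂ) : ℂ) = ((2 * R + x : ℝ) : ℂ) + t * I := by ring
      rw [e] at a2 a3 a4
      rw [Complex.ofReal_re, ← hL] at a4
      rw [← hL] at a3
      refine ⟨a1, a2, ?_, a4⟩
      have h7 := (abs_le.1 ((Complex.abs_re_le_norm _).trans a3)).1
      rw [Complex.sub_re, Complex.ofReal_re] at h7
      linarith
    have hH0 := (hloc 0 (by simp)).1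
    -- lower bound
    have hgr := grow_of h.diff (t := t) (a := 2 * R - s) (b := 2 * R + s) (m := L / 2) (by linarith)
      (fun u h1 h2 => by
        have := (hloc (u - 2 * R) (by rw [abs_le]; constructor <;> linarith)).2.1
        have e : 2 * R + (u - 2 * R) = u := by ring
        rwa [e] at this)
      (fun u h1 h2 => by
        have := (hloc (u - 2 * R) (by rw [abs_le]; constructor <;> linarith)).2.2.1
        have e : 2 * R + (u - 2 * R) = u := by ring
        rwa [e] at this)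
    have hlow : ‖H (I * t)‖ * Real.exp (L * (2 * R - C)) ≤ ‖FF X s ω (I * t + ((2 * R : ℝ) : ℂ))‖ := by
      unfold FF
      have e1 : (I * t + ((2 * R : ℝ) : ℂ) : ℂ) + s = ((2 * R + s : ℝ) : ℂ) + t * I := by push_cast; ring
      have e2 : (I * t + ((2 * R : ℝ) : ℂ) : ℂ) - s = ((2 * R - s : ℝ) : ℂ) + t * I := by push_cast; ring
      rw [e1, e2]
      have h2 : ‖X (((2 * R + s : ℝ) : ℂ) + t * I)‖ - ‖X (((2 * R - s : ℝ) : ℂ) + t * I)‖ ≤
          ‖X (((2 * R + s : ℝ) : ℂ) + t * I) - ω * X (((2 * R - s : ℝ) : ℂ) + t * I)‖ := by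
        have := norm_sub_norm_le (X (((2 * R + s : ℝ) : ℂ) + t * I)) (ω * X (((2 * R - s : ℝ) : ℂ) + t * I))
        rwa [norm_mul, hω, one_mul] at this
      refine le_trans ?_ h2
      have h3 := (hloc s (by rw [abs_of_pos hs]; exact hs1)).2.2.2
      obtain ⟨A, hA⟩ : ∃ A, A = ‖X (((2 * R + s : ℝ) : ℂ) + t * I)‖ := ⟨_, rfl⟩
      obtain ⟨B, hB⟩ : ∃ B, B = ‖X (((2 * R - s : ℝ) : ℂ) + t * I)‖ := ⟨_, rfl⟩
      rw [← hA, ← hB] at hgr ⊢
      rw [← hA] at h3
      have hB0 : 0 ≤ B := by rw [hB]; exact norm_nonneg _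
      have hA0 : 0 ≤ A := by rw [hA]; exact norm_nonneg _
      have h4 : 5 / 4 ≤ Real.exp (L / 2 * ((2 * R + s) - (2 * R - s))) := by
        have h5 : 1 / 4 ≤ L / 2 * ((2 * R + s) - (2 * R - s)) := by
          have e : L / 2 * ((2 * R + s) - (2 * R - s)) = κ * (s * Real.log t) := by rw [hL]; ring
          rw [e]
          have h6 : 1 ≤ 2 * (s * Real.log t) := by nlinarith
          nlinarith
        have := Real.add_one_le_exp (L / 2 * ((2 * R + s) - (2 * R - s)))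
        linarith
      have h5 : B * (5 / 4) ≤ A := (mul_le_mul_of_nonneg_left h4 hB0).trans hgr
      have h6 : ‖H (I * t)‖ * Real.exp (L * (2 * R - C)) ≤ A / 5 := by
        rw [le_div_iff₀ (by norm_num)]
        refine le_trans ?_ h3
        rw [mul_assoc]
        refine mul_le_mul_of_nonneg_left ?_ hH0.le
        have h7 : (5 : ℝ) ≤ Real.exp (L * 8) := by
          have := Real.add_one_le_exp (L * 8)
          linarith
        have hLlog : L * (1 / κ) = Real.log t := by rw [hL]; field_simp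
        calc Real.exp (L * (2 * R - C)) * 5 ≤ Real.exp (L * (2 * R - C)) * Real.exp (L * 8) := by gcongr
          _ = Real.exp (L * (2 * R - C) + L * 8) := by rw [← Real.exp_add]
          _ ≤ _ := by
            apply Real.exp_le_exp.2
            rw [hC, ← hLlog]
            have : 0 ≤ L * C1 := by positivity
            have : 0 ≤ L * s := by positivity
            nlinarith
      linarith
    have hcnt := Pool.Agent.W670.SD.count (f := FF X s ω) (FF_diff h s ω) (R := R) (ρ := 1600 * R) (L := L)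
      (A := ‖H (I * t)‖) (C := C) (t := t) hR1 hC0 (by rw [hR]; linarith) le_rfl hL0 hH0
      (by
        intro z hz
        have hre := abs_le.1 ((Complex.abs_re_le_norm _).trans hz)
        have him := abs_le.1 ((Complex.abs_im_le_norm _).trans hz)
        have e1 : (z - (I * (t : ℂ) + ((2 * R : ℝ) : ℂ))).re = z.re - 2 * R := by simp
        have e2 : (z - (I * (t : ℂ) + ((2 * R : ℝ) : ℂ))).im = z.im - t := by simp
        rw [e1] at hre
        rw [e2] at him
        have key : ∀ x : ℝ, |x| ≤ 1 → ‖X (z + x)‖ ≤ ‖H (I * t)‖ * Real.exp (L * (|z.re| + 1 + C1)) := by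
          intro x hx
          have hx' := abs_le.1 hx
          refine (hup t (z + x) (by linarith) ?_ ?_).trans ?_
          · rw [Complex.add_re, Complex.ofReal_re, abs_le, hR']
            constructor <;> linarith [hre.1, hre.2]
          · rw [Complex.add_im, Complex.ofReal_im, add_zero, abs_le, hR']
            constructor <;> linarith [him.1, him.2]
          · rw [← hL, Complex.add_re, Complex.ofReal_re]
            have : |z.re + x| ≤ |z.re| + 1 := (abs_add_le _ _).trans (by linarith)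
            gcongr
        have k1 := key s (by rw [abs_of_pos hs]; exact hs1)
        have k2 := key (-s) (by rw [abs_neg, abs_of_pos hs]; exact hs1)
        unfold FF
        refine (norm_sub_le _ _).trans ?_
        rw [norm_mul, hω, one_mul]
        have e3 : z + ((-s : ℝ) : ℂ) = z - s := by push_cast; ring
        rw [e3] at k2
        have h8 : (2 : ℝ) ≤ Real.exp (L * 1) := by
          have := Real.add_one_le_exp (L * 1)
          linarith
        calc _ ≤ 2 * (‖H (I * t)‖ * Real.exp (L * (|z.re| + 1 + C1))) := by linarith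
          _ ≤ Real.exp (L * 1) * (‖H (I * t)‖ * Real.exp (L * (|z.re| + 1 + C1))) := by gcongr
          _ = ‖H (I * t)‖ * Real.exp (L * 1 + L * (|z.re| + 1 + C1)) := by rw [Real.exp_add]; ring
          _ ≤ _ := by
            refine mul_le_mul_of_nonneg_left (Real.exp_le_exp.2 ?_) hH0.le
            rw [hC]
            nlinarith)
      hlow
      (by
        have e : (I * t - ((2 * R : ℝ) : ℂ) : ℂ) = -(conj (I * t + ((2 * R : ℝ) : ℂ))) := by
          rw [map_add, map_mul, Complex.conj_I, Complex.conj_ofReal, Complex.conj_ofReal]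
          ring
        rw [e]
        exact FF_norm_symm h s hω _)
      (by
        have e : (I * t - ((R : ℝ) : ℂ) : ℂ) = -(conj (I * t + ((R : ℝ) : ℂ))) := by
          rw [map_add, map_mul, Complex.conj_I, Complex.conj_ofReal, Complex.conj_ofReal]
          ring
        rw [e]
        exact FF_norm_symm h s hω _)
      (fun z hz => FF_strip h hs hω hz)
    obtain ⟨S, hS1, hS2⟩ := hcnt
    refine ⟨S, hS1, le_trans ?_ hS2⟩
    rw [hL]
    have h1 : κ * R * Real.log T ≤ κ * R * (2 * Real.log t) := by gcongr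
    linarith)
  refine ⟨S, hS1, le_trans (le_of_eq ?_) hS2⟩
  field_simp

end Pool.Agent.Q246.SA
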