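import Pool.Agent.Q246.SA.Cmp

set_option autoImplicit false

/-!
# Zeros of `X(z + h) - ω X(z - h)` off the line, or multiple
-/

namespace Pool.Agent.Q246.SA

open Complex Filter Topology Polynomial Set
open scoped ComplexConjugate

/-- Functions symmetric about the imaginary axis, with zeros in a strip and good polynomial approximations. -/
structure Sy (X : ℂ → ℂ) : Prop where
  diff : Differentiable ℂ X
  symm : ∀ z : ℂ, X (-(conj z)) = conj (X z)
  zero : ∃ z, X z = 0
  strip : ∀ b, X b = 0 → |b.re| ≤ 1 / 2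
  app : ∃ p : ℕ → ℂ[X], (∀ (N : ℕ) (z : ℂ), (p N).IsRoot z → X z = 0 ∨ z.re = 0) ∧
      TendstoLocallyUniformly (fun (N : ℕ) (z : ℂ) => (p N).eval z) X atTop ∧
      ∀ (N : ℕ) (h t : ℝ), ‖(p N).eval (-h + t * I : ℂ)‖ = ‖(p N).eval (h + t * I : ℂ)‖

variable {X : ℂ → ℂ}

theorem Sy.ne_one (h : Sy X) : X 1 ≠ 0 := by
  intro h0
  have := h.strip 1 h0
  norm_num at this

theorem Sy.le (h : Sy X) {t v u : ℝ} (hvu : v ^ 2 ≤ u ^ 2)
    (hZ : ∀ b : ℂ, X b = 0 → 2 * b.re ^ 2 ≤ u ^ 2 + v ^ 2 + 2 * (t - b.im) ^ 2) :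
    ‖X (v + t * I : ℂ)‖ ≤ ‖X (u + t * I : ℂ)‖ := by
  obtain ⟨p, h1, h2, h3⟩ := h.app
  exact cmp_of h1 h2 h3 hvu hZ

theorem Sy.lt (h : Sy X) {t v u : ℝ} (hu : 0 < u) (hvu : v ^ 2 < u ^ 2)
    (hZ : ∀ b : ℂ, X b = 0 → 2 * b.re ^ 2 < u ^ 2 + v ^ 2 + 2 * (t - b.im) ^ 2) :
    ‖X (v + t * I : ℂ)‖ < ‖X (u + t * I : ℂ)‖ := by
  obtain ⟨p, h1, h2, h3⟩ := h.app
  exact cmp_lt h.diff h.symm h.zero h1 h2 h3 h.strip hu hvu hZ

theorem Sy.re_nonneg (h : Sy X) {t u η : ℝ} (hη : 0 < η) (hu : 0 ≤ u)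
    (hZ : ∀ b : ℂ, X b = 0 → b.re ^ 2 ≤ u ^ 2 + (t - b.im) ^ 2) (hne : X (u + t * I : ℂ) ≠ 0) :
    0 ≤ (logDeriv X (u + t * I : ℂ)).re := by
  refine re_nonneg_of_mono (h.diff _) hne hη fun x hx _ => ?_
  have h1 := h.le (t := t) (v := u) (u := u + x) (by nlinarith) (fun b hb => by
    have := hZ b hb
    nlinarith)
  have e : ((u : ℂ) + t * I + x) = (((u + x : ℝ) : ℂ) + t * I) := by push_cast; ring
  rw [e]
  exact h1

/-- positive real part of the logarithmic derivative -/
theorem Sy.re_pos (h : Sy X) {t u : ℝ} (hu : 0 < u)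
    (hZ : ∀ b : ℂ, X b = 0 → b.re ^ 2 < u ^ 2 + (t - b.im) ^ 2) :
    X (u + t * I : ℂ) ≠ 0 ∧ 0 < (logDeriv X (u + t * I : ℂ)).re := by
  obtain ⟨ε, hε, hm⟩ := margin h.diff h.strip (t := t) (A := 2 * u ^ 2) (by positivity) (fun b hb => by
    have := hZ b hb
    linarith)
  obtain ⟨η, hη, hη1, hηu, hηε⟩ : ∃ η : ℝ, 0 < η ∧ η ≤ 1 ∧ η < u ∧ η * (4 * u + 12) ≤ ε := by
    refine ⟨min (min 1 (u / 2)) (ε / (4 * u + 12)), by positivity, (min_le_left _ _).trans (min_le_left _ _), ?_, ?_⟩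
    · refine lt_of_le_of_lt ((min_le_left _ _).trans (min_le_right _ _)) (by linarith)
    · have h1 : 0 < 4 * u + 12 := by linarith
      calc _ ≤ ε / (4 * u + 12) * (4 * u + 12) := mul_le_mul_of_nonneg_right (min_le_right _ _) h1.le
        _ = ε := by field_simp
  -- all points of the ball are good
  have hgood : ∀ u' t' : ℝ, |u' - u| < η → |t' - t| < η →
      ∀ b : ℂ, X b = 0 → b.re ^ 2 < u' ^ 2 + (t' - b.im) ^ 2 := by
    intro u' t' h1 h2 b hb
    have g1 := hm b hb
    obtain ⟨h3, h4⟩ := abs_lt.1 h1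
    obtain ⟨h5, h6⟩ := abs_lt.1 h2
    have hu2 : u ^ 2 - 2 * u * η < u' ^ 2 := by nlinarith
    rcases le_or_gt |t - b.im| 2 with h7 | h7
    · obtain ⟨h8, h9⟩ := abs_le.1 h7
      have h10 : (t - b.im) ^ 2 - 4 * η ≤ (t' - b.im) ^ 2 := by
        have e : (t' - b.im) ^ 2 = (t - b.im) ^ 2 + 2 * ((t - b.im) * (t' - t)) + (t' - t) ^ 2 := by ring
        have h11 : |(t - b.im) * (t' - t)| ≤ 2 * η := by
          rw [abs_mul]
          exact mul_le_mul h7 h2.le (abs_nonneg _) (by norm_num)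
        have := (abs_le.1 h11).1
        nlinarith [sq_nonneg (t' - t)]
      nlinarith
    · have h8 : b.re ^ 2 ≤ 1 / 4 := by
        have := h.strip b hb
        rw [← sq_abs]
        nlinarith [abs_nonneg b.re]
      have h9 : 1 < |t' - b.im| := by
        have e : t - b.im = (t' - b.im) - (t' - t) := by ring
        have h10 := abs_sub (t' - b.im) (t' - t)
        rw [← e] at h10
        linarith
      have h10 : 1 < (t' - b.im) ^ 2 := by
        rw [← sq_abs]
        nlinarith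
      nlinarith [sq_nonneg u']
  have hne : ∀ z ∈ Metric.ball (u + t * I : ℂ) η, X z ≠ 0 ∧ 0 ≤ (logDeriv X z).re := by
    intro z hz
    rw [Metric.mem_ball, dist_eq_norm] at hz
    have h1 : |z.re - u| < η := by
      have := Complex.abs_re_le_norm (z - (u + t * I))
      simp at this
      linarith
    have h2 : |z.im - t| < η := by
      have := Complex.abs_im_le_norm (z - (u + t * I))
      simp at this
      linarith
    have hg := hgood z.re z.im h1 h2
    have h0 : X z ≠ 0 := by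
      intro h0
      have := hg z h0
      simp at this
    have hzr : 0 ≤ z.re := by
      have := (abs_lt.1 h1).1
      linarith
    have e : z = (z.re + z.im * I : ℂ) := (Complex.re_add_im z).symm
    refine ⟨h0, ?_⟩
    rw [e]
    refine h.re_nonneg one_pos hzr (fun b hb => (hg b hb).le) ?_
    rw [← e]
    exact h0
  have hc : (u + t * I : ℂ) ∈ Metric.ball (u + t * I : ℂ) η := Metric.mem_ball_self hη
  refine ⟨(hne _ hc).1, ?_⟩
  refine lt_of_le_of_ne (hne _ hc).2 ?_
  intro hzero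
  have han : AnalyticOnNhd ℂ (logDeriv X) (Metric.ball (u + t * I : ℂ) η) := by
    intro z hz
    exact (h.diff.analyticAt z).deriv.div (h.diff.analyticAt z) (hne z hz).1
  rcases han.is_constant_or_isOpen (convex_ball _ _).isPreconnected with ⟨c, hcst⟩ | hopen
  · -- constant
    obtain ⟨G, hG⟩ : ∃ G : ℂ → ℂ, G = fun z => (deriv X z - c * X z) := ⟨_, rfl⟩
    have hGd : AnalyticOnNhd ℂ G Set.univ := by
      rw [hG]
      intro z _
      exact (h.diff.analyticAt z).deriv.sub (analyticAt_const.mul (h.diff.analyticAt z))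
    have hG0 : G = 0 := by
      have h1 : G =ᶠ[𝓝 (u + t * I : ℂ)] 0 := by
        filter_upwards [Metric.ball_mem_nhds (u + t * I : ℂ) hη] with z hz
        rw [hG]
        have h2 := hcst z hz
        rw [logDeriv_apply, div_eq_iff (hne z hz).1] at h2
        simp [h2]
      have h2 := hGd.eqOn_zero_of_preconnected_of_eventuallyEq_zero isPreconnected_univ
        (Set.mem_univ (u + t * I : ℂ)) h1
      funext z
      exact h2 (Set.mem_univ z)
    have hcon : ∀ z w : ℂ, X z * cexp (-(c * z)) = X w * cexp (-(c * w)) := by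
      have hd : Differentiable ℂ (fun z => X z * cexp (-(c * z))) := by
        have := h.diff
        fun_prop
      refine is_const_of_deriv_eq_zero hd fun z => ?_
      have h1 : HasDerivAt (fun z => X z * cexp (-(c * z)))
          (deriv X z * cexp (-(c * z)) + X z * (cexp (-(c * z)) * (-(c * 1)))) z := by
        refine (h.diff z).hasDerivAt.mul ?_
        exact (((hasDerivAt_id z).const_mul c).neg).cexp
      rw [h1.deriv]
      have h2 := congrFun hG0 z
      rw [hG] at h2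
      simp only [Pi.zero_apply] at h2
      linear_combination (cexp (-(c * z))) * h2
    obtain ⟨z0, hz0⟩ := h.zero
    have h1 := hcon 1 z0
    rw [hz0, zero_mul] at h1
    rcases mul_eq_zero.1 h1 with h2 | h2
    · exact h.ne_one h2
    · exact Complex.exp_ne_zero _ h2
  · have h1 := hopen _ subset_rfl Metric.isOpen_ball
    have h2 : logDeriv X (u + t * I : ℂ) ∈ logDeriv X '' Metric.ball (u + t * I : ℂ) η := ⟨_, hc, rfl⟩
    obtain ⟨r, hr, hball⟩ := Metric.isOpen_iff.1 h1 _ h2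
    have h3 : logDeriv X (u + t * I : ℂ) - ((r / 2 : ℝ) : ℂ) ∈ Metric.ball (logDeriv X (u + t * I : ℂ)) r := by
      rw [Metric.mem_ball, dist_eq_norm]
      rw [sub_sub_cancel_left, norm_neg, Complex.norm_real, Real.norm_of_nonneg (by linarith)]
      linarith
    obtain ⟨z, hz, hz2⟩ := hball h3
    have h4 := (hne z hz).2
    rw [hz2, Complex.sub_re, ← hzero, Complex.ofReal_re] at h4
    linarith

/-- the combination -/
noncomputable def FF (X : ℂ → ℂ) (h : ℝ) (ω : ℂ) (z : ℂ) : ℂ := X (z + h) - ω * X (z - h)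

theorem FF_diff (h : Sy X) (s : ℝ) (ω : ℂ) : Differentiable ℂ (FF X s ω) := by
  have h1 : Differentiable ℂ (fun z : ℂ => X (z + s)) := h.diff.comp (by fun_prop)
  have h2 : Differentiable ℂ (fun z : ℂ => X (z - s)) := h.diff.comp (by fun_prop)
  exact h1.sub (h2.const_mul ω)

theorem FF_symm (h : Sy X) (s : ℝ) {ω : ℂ} (hω : ‖ω‖ = 1) (z : ℂ) :
    FF X s ω (-(conj z)) = -ω * conj (FF X s ω z) := by
  unfold FF
  have e1 : -(conj z) + (s : ℂ) = -(conj (z - s)) := by rw [map_sub, Complex.conj_ofReal]; ring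
  have e2 : -(conj z) - (s : ℂ) = -(conj (z + s)) := by rw [map_add, Complex.conj_ofReal]; ring
  rw [e1, e2, h.symm, h.symm, map_sub, map_mul]
  have h1 : ω * conj ω = 1 := by
    rw [Complex.mul_conj, Complex.normSq_eq_norm_sq, hω]
    norm_num
  linear_combination (-(conj (X (z - s)))) * h1

theorem FF_norm_symm (h : Sy X) (s : ℝ) {ω : ℂ} (hω : ‖ω‖ = 1) (z : ℂ) :
    ‖FF X s ω (-(conj z))‖ = ‖FF X s ω z‖ := by
  rw [FF_symm h s hω, norm_mul, norm_neg, hω, one_mul, Complex.norm_conj]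

theorem FF_ne (h : Sy X) {s : ℝ} (hs : 0 < s) {ω : ℂ} (hω : ‖ω‖ = 1) {x y : ℝ} (hx : 0 < x)
    (hZ : ∀ b : ℂ, X b = 0 → b.re ^ 2 < x ^ 2 + s ^ 2 + (y - b.im) ^ 2) : FF X s ω (x + y * I) ≠ 0 := by
  have h1 := h.lt (t := y) (v := x - s) (u := x + s) (by linarith) (by nlinarith) (fun b hb => by
    have := hZ b hb
    nlinarith)
  intro h0
  unfold FF at h0
  have e1 : (x + y * I : ℂ) + s = ((x + s : ℝ) : ℂ) + y * I := by push_cast; ring
  have e2 : (x + y * I : ℂ) - s = ((x - s : ℝ) : ℂ) + y * I := by push_cast; ring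
  rw [e1, e2, sub_eq_zero] at h0
  rw [h0, norm_mul, hω, one_mul] at h1
  exact lt_irrefl _ h1

theorem deriv_symm (h : Sy X) (z : ℂ) : deriv X (-(conj z)) = -(conj (deriv X z)) := by
  have h1 : HasDerivAt X (deriv X (-(conj z))) (-(conj z)) := (h.diff _).hasDerivAt
  have h2 : HasDerivAt (fun w => X (-w)) (-deriv X (-(conj z))) (conj z) := by
    have h3 : HasDerivAt (fun w : ℂ => -w) (-1) (conj z) := (hasDerivAt_id _).neg
    have h4 := h1.comp (conj z) h3
    rw [mul_neg_one] at h4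
    exact h4
  have h4 : HasDerivAt (conj ∘ X ∘ conj) (conj (deriv X z)) (conj z) := by
    have := ((h.diff z).hasDerivAt).conj_conj
    exact this
  have h5 : (conj ∘ X ∘ conj) = fun w => X (-w) := by
    funext w
    simp only [Function.comp_apply]
    have := h.symm (conj w)
    rw [Complex.conj_conj] at this
    exact this.symm
  rw [h5] at h4
  have := h2.unique h4
  rw [← this, neg_neg]

theorem FF_simple (h : Sy X) {s : ℝ} (hs : 0 < s) {ω : ℂ} {y : ℝ}
    (hZ : ∀ b : ℂ, X b = 0 → b.re ^ 2 < s ^ 2 + (y - b.im) ^ 2) (h0 : FF X s ω (y * I) = 0) :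
    deriv (FF X s ω) (y * I) ≠ 0 := by
  obtain ⟨hne, hpos⟩ := h.re_pos (t := y) hs hZ
  intro h1
  have hd : HasDerivAt (FF X s ω) (deriv X (y * I + s) - ω * deriv X (y * I - s)) (y * I) := by
    have e1 : HasDerivAt (fun z : ℂ => X (z + s)) (deriv X (y * I + s)) (y * I) :=
      ((h.diff _).hasDerivAt).comp_add_const _ _
    have e2 : HasDerivAt (fun z : ℂ => X (z - s)) (deriv X (y * I - s)) (y * I) :=
      ((h.diff _).hasDerivAt).comp_sub_const _ _
    exact e1.sub (e2.const_mul ω)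
  rw [hd.deriv] at h1
  unfold FF at h0
  have e1 : (y * I + s : ℂ) = s + y * I := by ring
  have e2 : (y * I - s : ℂ) = -(conj (s + y * I : ℂ)) := by
    rw [map_add, map_mul, Complex.conj_ofReal, Complex.conj_ofReal, Complex.conj_I]; ring
  rw [e1, e2, h.symm] at h0
  rw [e1, e2, deriv_symm h] at h1
  obtain ⟨a, ha⟩ : ∃ a, a = X (s + y * I) := ⟨_, rfl⟩
  obtain ⟨a', ha'⟩ : ∃ a', a' = deriv X (s + y * I) := ⟨_, rfl⟩
  rw [← ha] at h0 hne
  rw [← ha'] at h1
  have hl : logDeriv X (s + y * I) = a' / a := by rw [logDeriv_apply, ha, ha']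
  rw [hl] at hpos
  have hca : conj a ≠ 0 := by rwa [Ne, map_eq_zero]
  -- a' / a = - conj (a' / a)
  have h2 : a' / a = -(conj (a' / a)) := by
    rw [map_div₀, ← neg_div, div_eq_div_iff hne hca]
    linear_combination (conj a) * h1 - (-(conj a')) * h0
  have h3 := congrArg Complex.re h2
  rw [Complex.neg_re, Complex.conj_re] at h3
  linarith

/-- an exceptional zero of the combination is close to a zero of `X` far from the line -/
theorem FF_bad (h : Sy X) {s : ℝ} (hs : 0 < s) {ω : ℂ} (hω : ‖ω‖ = 1) {z : ℂ} (h0 : FF X s ω z = 0)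
    (hb : z.re ≠ 0 ∨ deriv (FF X s ω) z = 0) :
    ∃ b : ℂ, X b = 0 ∧ z.re ^ 2 + s ^ 2 + (z.im - b.im) ^ 2 ≤ b.re ^ 2 := by
  by_contra hcon
  push Not at hcon
  rcases lt_trichotomy z.re 0 with h1 | h1 | h1
  · have h2 : FF X s ω (-(conj z)) = 0 := by
      rw [FF_symm h s hω, h0, map_zero, mul_zero]
    have e : (-(conj z)) = ((-z.re : ℝ) : ℂ) + (z.im : ℂ) * I := by
      apply Complex.ext <;> simp
    rw [e] at h2
    refine FF_ne h hs hω (x := -z.re) (y := z.im) (by linarith) (fun b hb => ?_) h2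
    have := hcon b hb
    rw [neg_sq]
    exact this
  · have e : z = (z.im : ℂ) * I := by
      apply Complex.ext <;> simp [h1]
    rcases hb with hb | hb
    · exact hb h1
    · rw [e] at h0 hb
      refine FF_simple h hs (fun b hb => ?_) h0 hb
      have := hcon b hb
      rw [h1] at this
      linarith
  · have e : z = (z.re : ℂ) + (z.im : ℂ) * I := (Complex.re_add_im z).symm
    rw [e] at h0
    exact FF_ne h hs hω h1 hcon h0

end Pool.Agent.Q246.SA
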